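import Pool.Agent.Work.MP_2ad852_ag.GF.Basics

/-!
# Statements of the items of the block GF
-/

namespace Pool.Agent.Work.MP_2ad852_ag.GF

open MvPolynomial Finset

/-! ## Tangent space -/

def S_Tan : Prop :=
  ∀ (ι : Type) [DecidableEq ι] (n : ℕ) (z : Fin n) (k e : ℕ) (d : ι → ℕ)
    (F : (Fin n →₀ ℕ) → Rg ι n), LKw z k e d F →
    ∀ (s l : ι) (b q : Fin n →₀ ℕ), b ∈ Mt n (d s) →
      fn z k e (fun p => pderiv (s, b) (F p)) (gf d l * monomial q 1) =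
        if l = s then - fn z k e F (monomial (b + q) 1) else 0

def S_Tan2 : Prop :=
  ∀ (ι : Type) (n : ℕ) (z : Fin n) (k e : ℕ) (F : (Fin n →₀ ℕ) → Rg ι n)
    (s : ι × (Fin n →₀ ℕ)) (u v : MvPolynomial (Fin n) (Rg ι n)), IsAnn z k e F u →
    IsAnn z k e F v → fn z k e (fun p => pderiv s (F p)) (u * v) = 0

def S_Van : Prop :=
  ∀ (n : ℕ) (R : Type) [CommRing R] [IsDomain R] (z : Fin n) (k e : ℕ)
    (F G : (Fin n →₀ ℕ) → R),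
    (∀ u v : MvPolynomial (Fin n) R, IsAnn z k e F u → IsAnn z k e F v → fn z k e G (u * v) = 0) →
    (∀ p ∈ Bad z k e (IsLead z k e F), G p = 0) → ∀ p ∈ Mk z k e, G p = 0

def S_Ind : Prop :=
  ∀ (n : ℕ) (R : Type) [CommRing R] [IsDomain R] (z : Fin n) (k e t : ℕ)
    (F : (Fin n →₀ ℕ) → R) (c : (Fin n →₀ ℕ) → R), t ≤ e →
    (∀ b ∈ Mt n (e - t), ∑ q ∈ Std z k t (IsLead z k e F),
      c q * fn z k e F (monomial (b + q) 1) = 0) →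
    ∀ q ∈ Std z k t (IsLead z k e F), c q = 0

def S_LAcore : Prop :=
  ∀ (R P S Ω : Type) [CommRing R] [IsDomain R] [Fintype P] [Fintype S] [Fintype Ω]
    (Bd : Finset P) (F : P → R) (G : S → P → R) (A : Ω → P → R) (C : S → Ω → R),
    (∃ p, F p ≠ 0) → (∀ ω, ∑ p, A ω p * F p = 0) → (∀ s ω, ∑ p, A ω p * G s p = C s ω) →
    (∀ c : Ω → R, (∀ s, ∑ ω, c ω * C s ω = 0) → c = 0) →
    (∀ (c0 : R) (c : S → R), (∀ p ∈ Bd, c0 * F p + ∑ s, c s * G s p = 0) →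
      ∀ p, c0 * F p + ∑ s, c s * G s p = 0) →
    Fintype.card Ω + 1 ≤ Bd.card

def S_Core : Prop :=
  ∀ (ι : Type) [Fintype ι] (n : ℕ) (z : Fin n) (k e : ℕ) (d : ι → ℕ)
    (F : (Fin n →₀ ℕ) → Rg ι n), LKw z k e d F →
    (∑ l ∈ (Finset.univ : Finset ι).filter (fun l => d l ≤ e),
      (Std z k (e - d l) (IsLead z k e F)).card) + 1 ≤ (Bad z k e (IsLead z k e F)).card

/-! ## Leading exponents -/

def S_LeadAdd : Prop :=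
  ∀ (n : ℕ) (R : Type) [CommRing R] [IsDomain R] (z : Fin n) (k e : ℕ)
    (F : (Fin n →₀ ℕ) → R) (q r : Fin n →₀ ℕ), IsLead z k e F q → IsLead z k e F (q + r)

def S_LeadZero : Prop :=
  ∀ (n : ℕ) (R : Type) [CommRing R] [IsDomain R] (z : Fin n) (k e : ℕ)
    (F : (Fin n →₀ ℕ) → R), (∃ p ∈ Mk z k e, F p ≠ 0) → ¬ IsLead z k e F 0

def S_Terra : Prop :=
  ∀ (ι : Type) [Fintype ι] (n : ℕ) (z : Fin n) (k e : ℕ) (d : ι → ℕ)
    (F : (Fin n →₀ ℕ) → Rg ι n) (a : ι → MvPolynomial (Fin n) (Rg ι n)),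
    LKw z k e d F → (∀ l, (a l).IsHomogeneous (e - d l)) → (∀ l, e < d l → a l = 0) →
    (∀ p ∈ Mk z k e, coeff p (∑ l, gf d l * a l) = 0) → ∀ l, IsAnn z k e F (a l)

def S_LeadSyz : Prop :=
  ∀ (n : ℕ) (R : Type) [CommRing R] [IsDomain R] (z : Fin n) (k e m : ℕ)
    (F : (Fin n →₀ ℕ) → R) (u : MvPolynomial (Fin n) R), u.IsHomogeneous m → IsAnn z k e F u →
    (∃ p : Fin n →₀ ℕ, p z = 0 ∧ coeff p u ≠ 0) →
    ∃ μ : Fin n →₀ ℕ, μ z = 0 ∧ ∑ i, μ i = m ∧ IsLead z k e F μ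

/-! ## Combinatorics -/

def S_NMP : Prop :=
  ∀ (n : ℕ) (U : Finset (Fin n)) (t h : ℕ) (H : Finset (Fin n →₀ ℕ)), t ≤ h →
    H ⊆ Finset.finsuppAntidiag U h →
    H.card * (Finset.finsuppAntidiag U t).card ≤
      ((Finset.finsuppAntidiag U t).filter (fun q => ∃ p ∈ H, q ≤ p)).card *
        (Finset.finsuppAntidiag U h).card

open Classical in
def S_CombU : Prop :=
  ∀ (n : ℕ) (U : Finset (Fin n)) (t e : ℕ) (L : (Fin n →₀ ℕ) → Prop), 2 * t + U.card ≤ e + 1 →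
    ((Finset.finsuppAntidiag U e).filter (fun p => ∀ q, L q → ¬ q + q ≤ p)).card *
        (Finset.finsuppAntidiag U t).card ≤
      ((Finset.finsuppAntidiag U t).filter (fun q => ¬ L q)).card *
        (Finset.finsuppAntidiag U e).card

def S_CombU1 : Prop :=
  ∀ (n : ℕ) (z : Fin n) (t e : ℕ) (L : (Fin n →₀ ℕ) → Prop), 2 * t + n ≤ e + 2 →
    (Bad z 1 e L).card * (Mk z 1 t).card ≤ (Std z 1 t L).card * (Mk z 1 e).card

def S_CntUp : Prop :=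
  ∀ (n : ℕ) (z : Fin n) (k t : ℕ), 2 ≤ n → (Mk z k t).card ≤ min k (t + 1) * (t + 1) ^ (n - 2)

def S_CntLow : Prop :=
  ∀ (n : ℕ) (z : Fin n) (k e : ℕ), 2 ≤ n → k ≤ e + 1 →
    k * e ^ (n - 2) ≤ 2 * (2 * n) ^ (n - 2) * (Mk z k e).card

open Classical in
def S_MapG : Prop :=
  ∀ (n : ℕ) (z i j : Fin n) (k e t m A B C : ℕ) (L : (Fin n →₀ ℕ) → Prop),
    2 ≤ n → i ≠ z → j ≠ i → 1 ≤ t → 1 ≤ k → t ≤ m → 2 * n * m ≤ e →
    e ≤ A * t → m ≤ B * t → k ≤ C * t →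
    ((Bad z k e L).filter (fun p => p i < 2 * m ∧ e ≤ n * p j)).card ≤
      (Std z k t L).card *
        ∏ s ∈ Finset.univ.erase j, (if s = i then 2 * n * B else if s = z then 2 * n * C else n * A)

def S_CombG : Prop :=
  ∀ n : ℕ, 2 ≤ n → ∃ ρ : ℕ, 2 ≤ ρ ∧ ∀ (z : Fin n) (k e t m : ℕ) (L : (Fin n →₀ ℕ) → Prop)
    (μ : Fin n →₀ ℕ), 1 ≤ k → L μ → μ z = 0 → ∑ i, μ i = m → 1 ≤ t → t ≤ m → ρ * m ≤ e →
    (Bad z k e L).card * (Mk z k t).card ≤ (Std z k t L).card * (Mk z k e).card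

/-! ## Matrices -/

def S_MatL : Prop :=
  ∀ (ι : Type) [Fintype ι] (n : ℕ) (z : Fin n) (k e : ℕ) (d : ι → ℕ),
    (∃ v : Rows z k e → Rg ι n, v ≠ 0 ∧ Matrix.vecMul v (mat z k e d (gf (n := n) d)) = 0) ↔
      LK z k e d

def S_MatR : Prop :=
  ∀ (ι : Type) [Fintype ι] (n : ℕ) (z : Fin n) (k e : ℕ) (d : ι → ℕ),
    (∃ x : Cols z k e d → Rg ι n, x ≠ 0 ∧ Matrix.mulVec (mat z k e d (gf (n := n) d)) x = 0) ↔
      RK z k e d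

def S_CardCols : Prop :=
  ∀ (ι : Type) [Fintype ι] (n : ℕ) (z : Fin n) (k e : ℕ) (d : ι → ℕ),
    Fintype.card (Cols z k e d) = nC z k e d

def S_LAleft : Prop :=
  ∀ (R I J : Type) [CommRing R] [IsDomain R] [Fintype I] [Fintype J] [DecidableEq I]
    (A : Matrix I J R), (∀ v : I → R, Matrix.vecMul v A = 0 → v = 0) →
    ∃ (P : R) (B : Matrix J I R), P ≠ 0 ∧ A * B = P • (1 : Matrix I I R)

def S_LAright : Prop :=
  ∀ (R I J : Type) [CommRing R] [IsDomain R] [Fintype I] [Fintype J] [DecidableEq J]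
    (A : Matrix I J R), (∀ x : J → R, Matrix.mulVec A x = 0 → x = 0) →
    ∃ (P : R) (B : Matrix J I R), P ≠ 0 ∧ B * A = P • (1 : Matrix J J R)

def S_LASq : Prop :=
  ∀ (R I J : Type) [CommRing R] [IsDomain R] [Fintype I] [Fintype J]
    (A : Matrix I J R), Fintype.card I = Fintype.card J →
    (∃ x : J → R, x ≠ 0 ∧ Matrix.mulVec A x = 0) → ∃ v : I → R, v ≠ 0 ∧ Matrix.vecMul v A = 0

def S_LALR : Prop :=
  ∀ (R I J : Type) [CommRing R] [IsDomain R] [Fintype I] [Fintype J]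
    (A : Matrix I J R), Fintype.card I ≤ Fintype.card J →
    (∃ v : I → R, v ≠ 0 ∧ Matrix.vecMul v A = 0) → ∃ x : J → R, x ≠ 0 ∧ Matrix.mulVec A x = 0

def S_OpenL : Prop :=
  ∀ (ι : Type) [Fintype ι] (n : ℕ) (z : Fin n) (k e : ℕ) (d : ι → ℕ), ¬ LK z k e d →
    ∃ P : Rg ι n, P ≠ 0 ∧ ∀ c : ι × (Fin n →₀ ℕ) → ℂ, eval c P ≠ 0 → SurjAt z k e (sf d c)

def S_OpenR : Prop :=
  ∀ (ι : Type) [Fintype ι] (n : ℕ) (z : Fin n) (k e : ℕ) (d : ι → ℕ), ¬ RK z k e d →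
    ∃ P : Rg ι n, P ≠ 0 ∧ ∀ c : ι × (Fin n →₀ ℕ) → ℂ, eval c P ≠ 0 → InjAt z k e d (sf d c)

/-! ## Fillers and changes of `k` -/

/-- there is a syzygy modulo `z ^ k` which is not divisible by `z` -/
def RKz {ι : Type} [Fintype ι] {n : ℕ} (z : Fin n) (k e : ℕ) (d : ι → ℕ) : Prop :=
  ∃ a : ι → MvPolynomial (Fin n) (Rg ι n), RKw z k e d a ∧
    ∃ l, ∃ p : Fin n →₀ ℕ, p z = 0 ∧ coeff p (a l) ≠ 0

def S_ExtR : Prop :=
  ∀ (ι : Type) [Fintype ι] (n : ℕ) (z : Fin n) (k e s : ℕ) (d : ι → ℕ), RKz z k e d →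
    RKz z k e (Sum.elim d (fun _ : Fin s => e))

def S_ExtC : Prop :=
  ∀ (ι : Type) [Fintype ι] (n : ℕ) (z : Fin n) (k e s : ℕ) (d : ι → ℕ), 1 ≤ k →
    nC z k e (Sum.elim d (fun _ : Fin s => e)) = nC z k e d + s

def S_GA : Prop :=
  ∀ (ι : Type) [Fintype ι] (n : ℕ) (z : Fin n) (k e : ℕ) (d : ι → ℕ), 2 ≤ n →
    RK z k e d → RK z 1 e d

def S_GB : Prop :=
  ∀ (ι : Type) [Fintype ι] (n : ℕ) (z : Fin n) (k e : ℕ) (d : ι → ℕ),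
    RK z k e d → ¬ RKz z k e d → 2 ≤ k ∧ 1 ≤ e ∧ RK z (k - 1) (e - 1) d

def S_GC : Prop :=
  ∀ (ι : Type) (n : ℕ) (z : Fin n) (k e : ℕ) (d : ι → ℕ), 1 ≤ e →
    LK z k e d → ¬ LK z (k - 1) (e - 1) d → LK z 1 e d

/-! ## From the matrices to the quotient ring -/

def S_Mono : Prop :=
  ∀ (ι : Type) (n : ℕ) (z : Fin n) (k E e : ℕ) (f : ι → MvPolynomial (Fin n) ℂ), E ≤ e →
    SurjAt z k E f → SurjAt z k e f

def S_Full : Prop :=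
  ∀ (ι : Type) (n : ℕ) (z : Fin n) (k E : ℕ) (d : ι → ℕ) (f : ι → MvPolynomial (Fin n) ℂ),
    (∀ l, (f l).IsHomogeneous (d l)) → SurjAt z (E + 1) E f → SurjAt z k E f

def S_FinSurj : Prop :=
  ∀ (ι : Type) (n : ℕ) (z : Fin n) (k i : ℕ) (d : ι → ℕ) (f : ι → MvPolynomial (Fin n) ℂ),
    (∀ l, (f l).IsHomogeneous (d l)) → SurjAt z k (i + k) f →
    ∀ h : MvPolynomial (Fin n) ℂ, h.IsHomogeneous (i + k) →
      ∃ g : MvPolynomial (Fin n) ℂ, g.IsHomogeneous i ∧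
        h - X z ^ k * g ∈ Ideal.span (Set.range f)

def S_FinInj : Prop :=
  ∀ (ι : Type) [Fintype ι] (n : ℕ) (z : Fin n) (k i : ℕ) (d : ι → ℕ)
    (f : ι → MvPolynomial (Fin n) ℂ),
    (∀ l, (f l).IsHomogeneous (d l)) → InjAt z k (i + k) d f →
    ∀ g : MvPolynomial (Fin n) ℂ, g.IsHomogeneous i →
      X z ^ k * g ∈ Ideal.span (Set.range f) → g ∈ Ideal.span (Set.range f)

def S_Pull : Prop :=
  ∀ (r n : ℕ) (d : Fin r → ℕ) (P : Rg (Fin r) n), P ≠ 0 →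
    ∃ P' : MvPolynomial (Fin r × (Fin n →₀ ℕ)) ℂ,
      (∃ f₀ : Fin r → MvPolynomial (Fin n) ℂ, (∀ j, (f₀ j).IsHomogeneous (d j)) ∧
        MvPolynomial.eval (fun p => (f₀ p.1).coeff p.2) P' ≠ 0) ∧
      ∀ f : Fin r → MvPolynomial (Fin n) ℂ, (∀ j, (f j).IsHomogeneous (d j)) →
        MvPolynomial.eval (fun p => (f p.1).coeff p.2) P' ≠ 0 →
        ∃ c : Fin r × (Fin n →₀ ℕ) → ℂ, eval c P ≠ 0 ∧ f = sf d c

def S_Num : Prop :=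
  ∀ n ρ : ℕ, 1 ≤ n → 2 ≤ ρ → ∃ N : ℕ, ∀ δ : ℕ, 1 ≤ δ →
    (Mt n (δ + δ / (ρ - 1))).card ≤ N * (Mt n (δ / (ρ - 1))).card

end Pool.Agent.Work.MP_2ad852_ag.GF
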