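import Pool.Agent.Work.MP_2ad852_ag.Bd.B01

/-!
# Final assemblies
-/

namespace Pool.Agent.Work.MP_2ad852_ag.GF

open MvPolynomial Finset

/-- multiplication by `l ^ k` from degree `i` of the quotient by `I` is injective or surjective -/
def MaxRk {n : ℕ} (I : Ideal (MvPolynomial (Fin n) ℂ)) (l : MvPolynomial (Fin n) ℂ) (i k : ℕ) :
    Prop :=
  (∀ g : MvPolynomial (Fin n) ℂ, g.IsHomogeneous i → l ^ k * g ∈ I → g ∈ I) ∨
  (∀ h : MvPolynomial (Fin n) ℂ, h.IsHomogeneous (i + k) →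
    ∃ g : MvPolynomial (Fin n) ℂ, g.IsHomogeneous i ∧ h - l ^ k * g ∈ I)

/-- a property of tuples of forms of degrees `d j` holds for generic tuples -/
def Generic {n r : ℕ} (d : Fin r → ℕ) (Q : (Fin r → MvPolynomial (Fin n) ℂ) → Prop) : Prop :=
  ∃ P : MvPolynomial (Fin r × (Fin n →₀ ℕ)) ℂ,
    (∃ f₀ : Fin r → MvPolynomial (Fin n) ℂ, (∀ j, (f₀ j).IsHomogeneous (d j)) ∧
      MvPolynomial.eval (fun p => (f₀ p.1).coeff p.2) P ≠ 0) ∧
    ∀ f : Fin r → MvPolynomial (Fin n) ℂ, (∀ j, (f j).IsHomogeneous (d j)) →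
      MvPolynomial.eval (fun p => (f p.1).coeff p.2) P ≠ 0 → Q f

theorem Generic.mono {n r : ℕ} {d : Fin r → ℕ} {Q Q' : (Fin r → MvPolynomial (Fin n) ℂ) → Prop}
    (h : Generic d Q) (hQ : ∀ f, (∀ j, (f j).IsHomogeneous (d j)) → Q f → Q' f) :
    Generic d Q' := by
  obtain ⟨P, h1, h2⟩ := h
  exact ⟨P, h1, fun f hf hP => hQ f hf (h2 f hf hP)⟩

theorem prodP {σ α : Type} (T : Finset α) (Q : α → (σ → ℂ) → Prop)
    (h : ∀ a ∈ T, ∃ P : MvPolynomial σ ℂ, P ≠ 0 ∧ ∀ c, eval c P ≠ 0 → Q a c) :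
    ∃ P : MvPolynomial σ ℂ, P ≠ 0 ∧ ∀ c, eval c P ≠ 0 → ∀ a ∈ T, Q a c := by
  classical
  induction T using Finset.induction_on with
  | empty => exact ⟨1, one_ne_zero, fun c _ a ha => absurd ha (Finset.notMem_empty a)⟩
  | insert a T ha ih =>
    obtain ⟨P1, h1, h1'⟩ := h a (Finset.mem_insert_self a T)
    obtain ⟨P2, h2, h2'⟩ := ih fun b hb => h b (Finset.mem_insert_of_mem hb)
    refine ⟨P1 * P2, mul_ne_zero h1 h2, fun c hc b hb => ?_⟩
    rw [eval_mul] at hc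
    rcases Finset.mem_insert.1 hb with rfl | hb
    · exact h1' c (left_ne_zero_of_mul hc)
    · exact h2' c (right_ne_zero_of_mul hc) b hb

theorem maxRk_of {n r : ℕ} (hFS : S_FinSurj) (hFI : S_FinInj) {z : Fin n} {d : Fin r → ℕ}
    {f : Fin r → MvPolynomial (Fin n) ℂ} (hf : ∀ j, (f j).IsHomogeneous (d j)) {i k : ℕ}
    (h : SurjAt z k (i + k) f ∨ InjAt z k (i + k) d f) :
    MaxRk (Ideal.span (Set.range f)) (X z) i k := by
  rcases h with h | h
  · exact Or.inr fun g hg => hFS _ n z k i d f hf h g hg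
  · exact Or.inl fun g hg hg' => hFI _ n z k i d f hf h g hg hg'

theorem open_of {n r : ℕ} (hOL : S_OpenL) (hOR : S_OpenR) (z : Fin n) (k e : ℕ) (d : Fin r → ℕ)
    (h : RK z k e d → LK z k e d → False) :
    ∃ P : Rg (Fin r) n, P ≠ 0 ∧ ∀ c : Fin r × (Fin n →₀ ℕ) → ℂ, eval c P ≠ 0 →
      SurjAt z k e (sf d c) ∨ InjAt z k e d (sf d c) := by
  by_cases h1 : RK z k e d
  · obtain ⟨P, hP, hP'⟩ := hOL (Fin r) n z k e d (fun h2 => h h1 h2)
    exact ⟨P, hP, fun c hc => Or.inl (hP' c hc)⟩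
  · obtain ⟨P, hP, hP'⟩ := hOR (Fin r) n z k e d h1
    exact ⟨P, hP, fun c hc => Or.inr (hP' c hc)⟩

theorem generic_of {n r : ℕ} (hPull : S_Pull) {d : Fin r → ℕ} {Q : (Fin r → MvPolynomial (Fin n) ℂ) → Prop}
    (h : ∃ P : Rg (Fin r) n, P ≠ 0 ∧ ∀ c : Fin r × (Fin n →₀ ℕ) → ℂ, eval c P ≠ 0 → Q (sf d c)) :
    Generic d Q := by
  obtain ⟨P, hP, hP'⟩ := h
  obtain ⟨P', h1, h2⟩ := hPull r n d P hP
  refine ⟨P', h1, fun f hf hfP => ?_⟩
  obtain ⟨c, hc, rfl⟩ := h2 f hf hfP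
  exact hP' c hc

/-- the range version for all `k` -/
theorem rangeA (hCore : S_Core) (hZ : S_LeadZero) (hAdd : S_LeadAdd) (hT : S_Terra)
    (hLS : S_LeadSyz) (hML : S_MatL) (hMR : S_MatR) (hCC : S_CardCols) (hSq : S_LASq)
    (hExtR : S_ExtR) (hExtC : S_ExtC) (hGA : S_GA) (hGB : S_GB) (hGC : S_GC)
    (hOL : S_OpenL) (hOR : S_OpenR)
    {n ρ : ℕ} (hn2 : 2 ≤ n) (hρ2 : 2 ≤ ρ)
    (hρ : ∀ (z : Fin n) (k e t m : ℕ) (L : (Fin n →₀ ℕ) → Prop)
      (μ : Fin n →₀ ℕ), 1 ≤ k → L μ → μ z = 0 → ∑ i, μ i = m → 1 ≤ t → t ≤ m → ρ * m ≤ e →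
      (Bad z k e L).card * (Mk z k t).card ≤ (Std z k t L).card * (Mk z k e).card)
    {r δ : ℕ} {d : Fin r → ℕ} (hd : ∀ j, δ ≤ d j) (z : Fin n) :
    ∃ P : Rg (Fin r) n, P ≠ 0 ∧ ∀ c : Fin r × (Fin n →₀ ℕ) → ℂ, eval c P ≠ 0 →
      ∀ k e : ℕ, k ≤ δ + δ / (ρ - 1) → e ≤ δ + δ / (ρ - 1) →
        SurjAt z k e (sf d c) ∨ InjAt z k e d (sf d c) := by
  set E := δ + δ / (ρ - 1) with hE
  obtain ⟨P, hP, hP'⟩ := prodP (σ := Fin r × (Fin n →₀ ℕ))
    ((Finset.range (E + 1)) ×ˢ (Finset.range (E + 1)))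
    (fun ke c => SurjAt z ke.1 ke.2 (sf d c) ∨ InjAt z ke.1 ke.2 d (sf d c)) (by
      rintro ⟨k, e⟩ hke
      rw [Finset.mem_product, Finset.mem_range, Finset.mem_range] at hke
      refine open_of hOL hOR z k e d ?_
      refine dich hCore hZ hAdd hT hLS hML hMR hCC hSq hExtR hExtC hGA hGB hGC hn2 (by omega) hρ
        k e fun l hl => ?_
      have h1 := hd l
      have h2 : e ≤ δ + δ / (ρ - 1) := by have := hke.2; simp only at this; omega
      have h3 : e - d l ≤ δ / (ρ - 1) := by omega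
      have h4 : (ρ - 1) * (δ / (ρ - 1)) ≤ δ := Nat.mul_div_le _ _
      have h5 : (ρ - 1) * (e - d l) ≤ d l :=
        le_trans (Nat.mul_le_mul_left _ h3) (le_trans h4 h1)
      have h6 : ρ * (e - d l) = (ρ - 1) * (e - d l) + (e - d l) := by
        obtain ⟨ρ', rfl⟩ : ∃ ρ', ρ = ρ' + 1 := ⟨ρ - 1, by omega⟩
        rw [Nat.add_sub_cancel]; ring
      omega)
  refine ⟨P, hP, fun c hc k e hk he => ?_⟩
  exact hP' c hc (k, e) (Finset.mem_product.2 ⟨Finset.mem_range.2 (by omega),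
    Finset.mem_range.2 (by omega)⟩)

/-- vanishing of the quotient in degree `E` -/
theorem topA (hCore : S_Core) (hZ : S_LeadZero) (hAdd : S_LeadAdd) (hT : S_Terra)
    (hLS : S_LeadSyz) (hML : S_MatL) (hMR : S_MatR) (hCC : S_CardCols) (hSq : S_LASq)
    (hLR : S_LALR)
    (hExtR : S_ExtR) (hExtC : S_ExtC) (hGA : S_GA) (hGB : S_GB) (hGC : S_GC)
    (hOL : S_OpenL)
    {n ρ : ℕ} (hn2 : 2 ≤ n) (hρ2 : 2 ≤ ρ)
    (hρ : ∀ (z : Fin n) (k e t m : ℕ) (L : (Fin n →₀ ℕ) → Prop)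
      (μ : Fin n →₀ ℕ), 1 ≤ k → L μ → μ z = 0 → ∑ i, μ i = m → 1 ≤ t → t ≤ m → ρ * m ≤ e →
      (Bad z k e L).card * (Mk z k t).card ≤ (Std z k t L).card * (Mk z k e).card)
    {r δ N : ℕ} (hN : (Mt n (δ + δ / (ρ - 1))).card ≤ N * (Mt n (δ / (ρ - 1))).card)
    {d : Fin r → ℕ} (hd : ∀ j, δ ≤ d j)
    (hNd : N ≤ ((Finset.univ : Finset (Fin r)).filter (fun j => d j = δ)).card) (z : Fin n) :
    ∃ P : Rg (Fin r) n, P ≠ 0 ∧ ∀ c : Fin r × (Fin n →₀ ℕ) → ℂ, eval c P ≠ 0 →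
      SurjAt z ((δ + δ / (ρ - 1)) + 1) (δ + δ / (ρ - 1)) (sf d c) := by
  have h40 : (ρ - 1) * (δ / (ρ - 1)) ≤ δ := Nat.mul_div_le _ _
  generalize δ / (ρ - 1) = g at *
  obtain ⟨E, hE⟩ : ∃ E, E = δ + g := ⟨_, rfl⟩
  rw [← hE] at hN ⊢
  refine hOL (Fin r) n z (E + 1) E d ?_
  intro hLK
  have hMk : ∀ t, t ≤ E → Mk z (E + 1) t = Mt n t := by
    intro t ht
    ext p
    rw [mem_Mk, mem_Mt]
    constructor
    · exact fun h => h.1
    · intro h
      refine ⟨h, ?_⟩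
      have : p z ≤ ∑ i, p i := Finset.single_le_sum (fun _ _ => Nat.zero_le _) (Finset.mem_univ z)
      omega
  have hcard : (Mk z (E + 1) E).card ≤ nC z (E + 1) E d := by
    rw [hMk E le_rfl]
    refine le_trans hN ?_
    refine le_trans (Nat.mul_le_mul_right _ hNd) ?_
    unfold nC
    have h1 : ∑ l ∈ (Finset.univ : Finset (Fin r)).filter (fun j => d j = δ),
        (Mk z (E + 1) (E - d l)).card =
        ((Finset.univ : Finset (Fin r)).filter (fun j => d j = δ)).card *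
          (Mt n g).card := by
      rw [Finset.sum_congr rfl (g := fun _ => (Mt n g).card), Finset.sum_const,
        smul_eq_mul]
      intro l hl
      rw [(Finset.mem_filter.1 hl).2, hMk _ (by omega)]
      congr 2
      omega
    rw [← h1]
    refine Finset.sum_le_sum_of_subset ?_
    intro l hl
    rw [Finset.mem_filter] at hl ⊢
    exact ⟨hl.1, by omega⟩
  have hRK : RK z (E + 1) E d := RK_of_LK hML hMR hCC hLR hcard hLK
  refine dich hCore hZ hAdd hT hLS hML hMR hCC hSq hExtR hExtC hGA hGB hGC hn2 (by omega) hρ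
    (E + 1) E (fun l hl => ?_) hRK hLK
  have h1 := hd l
  have h3 : E - d l ≤ g := by omega
  have h4 : (ρ - 1) * g ≤ δ := h40
  have h5 : (ρ - 1) * (E - d l) ≤ d l :=
    le_trans (Nat.mul_le_mul_left _ h3) (le_trans h4 h1)
  have h6 : ρ * (E - d l) = (ρ - 1) * (E - d l) + (E - d l) := by
    obtain ⟨ρ', rfl⟩ : ∃ ρ', ρ = ρ' + 1 := ⟨ρ - 1, by omega⟩
    rw [Nat.add_sub_cancel]; ring
  omega

/-- at most one variable -/
theorem small {n r : ℕ} (hn : n ≤ 1) (d : Fin r → ℕ) :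
    Generic (n := n) d (fun f => ∃ l : MvPolynomial (Fin n) ℂ, l.IsHomogeneous 1 ∧
      ∀ i k : ℕ, MaxRk (Ideal.span (Set.range f)) l i k) := by
  refine ⟨1, ⟨fun _ => 0, fun j => isHomogeneous_zero _ _ _, by simp⟩, fun f _ _ => ?_⟩
  rcases Nat.eq_zero_or_pos n with rfl | hn'
  · refine ⟨0, isHomogeneous_zero _ _ _, fun i k => ?_⟩
    rcases Nat.eq_zero_or_pos k with rfl | hk
    · exact Or.inr fun h hh => ⟨h, hh, by simp⟩
    · refine Or.inr fun h hh => ⟨0, isHomogeneous_zero _ _ _, ?_⟩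
      have : h = 0 := by
        ext p
        rw [coeff_zero]
        by_contra hne
        have := (isHomogeneous_iff_Mt h (i + k)).1 hh p hne
        simp at this
        omega
      rw [this]
      simp
  · have h1 : n = 1 := by omega
    subst h1
    refine ⟨X 0, isHomogeneous_X _ _, fun i k => Or.inr fun h hh => ?_⟩
    refine ⟨monomial (Finsupp.single 0 i) (coeff (Finsupp.single 0 (i + k)) h), ?_, ?_⟩
    · rw [isHomogeneous_iff_Mt]
      intro p hp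
      rw [coeff_monomial] at hp
      by_cases hpi : Finsupp.single (0 : Fin 1) i = p
      · rw [← hpi]; simp
      · rw [if_neg hpi] at hp; exact absurd rfl hp
    · have : h - X 0 ^ k * monomial (Finsupp.single 0 i) (coeff (Finsupp.single 0 (i + k)) h) = 0 := by
        rw [X_pow_eq_monomial, monomial_mul, one_mul, ← Finsupp.single_add]
        ext p
        rw [coeff_sub, coeff_monomial, coeff_zero]
        by_cases hpi : Finsupp.single (0 : Fin 1) (k + i) = p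
        · rw [if_pos hpi, ← hpi, Nat.add_comm i k, sub_self]
        · rw [if_neg hpi, sub_zero]
          by_contra hne
          have h2 := (isHomogeneous_iff_Mt h (i + k)).1 hh p hne
          apply hpi
          simp at h2
          refine Finsupp.ext fun j => ?_
          have hj : j = 0 := Subsingleton.elim _ _
          subst hj
          rw [Finsupp.single_eq_same, h2, Nat.add_comm]
      rw [this]
      exact Ideal.zero_mem _

end Pool.Agent.Work.MP_2ad852_ag.GF
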