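import Pool.Agent.Work.MP_2ad852_ag.GF.Defs

/-!
# Basic lemmas for the block GF
-/

namespace Pool.Agent.Work.MP_2ad852_ag.GF

open MvPolynomial Finset

theorem key_add {n : ℕ} (z : Fin n) (p q : Fin n →₀ ℕ) : key z (p + q) = key z p + key z q := by
  unfold key
  rw [Finsupp.erase_add, map_add]

theorem sum_eq_degree {n : ℕ} (p : Fin n →₀ ℕ) : ∑ i, p i = Finsupp.degree p := by
  rw [Finsupp.degree_eq_sum]

theorem sum_erase {n : ℕ} (z : Fin n) (p : Fin n →₀ ℕ) :
    (∑ i, p i) = p z + ∑ i, (p.erase z) i := by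
  rw [← Finset.add_sum_erase _ _ (Finset.mem_univ z)]
  congr 1
  rw [← Finset.add_sum_erase (Finset.univ) (fun i => (p.erase z) i) (Finset.mem_univ z)]
  simp only [Finsupp.erase_same, zero_add]
  apply Finset.sum_congr rfl
  intro i hi
  rw [Finsupp.erase_ne (Finset.ne_of_mem_erase hi)]

theorem key_inj {n : ℕ} (z : Fin n) {p q : Fin n →₀ ℕ} (h : ∑ i, p i = ∑ i, q i)
    (hk : key z p = key z q) : p = q := by
  unfold key at hk
  have he : p.erase z = q.erase z := (MonomialOrder.degLex (σ := Fin n)).toSyn.injective hk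
  have hz : p z = q z := by
    have h1 := sum_erase z p
    have h2 := sum_erase z q
    rw [he] at h1
    omega
  ext i
  by_cases hi : i = z
  · rw [hi, hz]
  · rw [← Finsupp.erase_ne (f := p) hi, he, Finsupp.erase_ne hi]

theorem isHomogeneous_iff_Mt {n : ℕ} {R : Type} [CommRing R] (u : MvPolynomial (Fin n) R) (t : ℕ) :
    u.IsHomogeneous t ↔ ∀ p, coeff p u ≠ 0 → ∑ i, p i = t := by
  constructor
  · intro h p hp
    by_contra hne
    rw [sum_eq_degree] at hne
    exact hp (h.coeff_eq_zero hne)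
  · intro h p hp
    have := h p hp
    rw [sum_eq_degree, Finsupp.degree_eq_weight_one] at this
    exact this

section fnlemmas

variable {n : ℕ} {R : Type} [CommRing R] (z : Fin n) (k e : ℕ)

theorem fn_add (F : (Fin n →₀ ℕ) → R) (u v : MvPolynomial (Fin n) R) :
    fn z k e F (u + v) = fn z k e F u + fn z k e F v := by
  unfold fn
  rw [← Finset.sum_add_distrib]
  exact Finset.sum_congr rfl fun p _ => by rw [coeff_add]; ring

theorem fn_C_mul (F : (Fin n →₀ ℕ) → R) (c : R) (u : MvPolynomial (Fin n) R) :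
    fn z k e F (C c * u) = c * fn z k e F u := by
  unfold fn
  rw [Finset.mul_sum]
  exact Finset.sum_congr rfl fun p _ => by rw [coeff_C_mul]; ring

theorem fn_zero (F : (Fin n →₀ ℕ) → R) : fn z k e F 0 = 0 := by
  unfold fn
  exact Finset.sum_eq_zero fun p _ => by rw [coeff_zero, zero_mul]

theorem fn_sum (F : (Fin n →₀ ℕ) → R) {σ : Type} (s : Finset σ) (u : σ → MvPolynomial (Fin n) R) :
    fn z k e F (∑ i ∈ s, u i) = ∑ i ∈ s, fn z k e F (u i) := by
  unfold fn
  rw [Finset.sum_comm]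
  exact Finset.sum_congr rfl fun p _ => by rw [coeff_sum, Finset.sum_mul]

theorem fn_monomial (F : (Fin n →₀ ℕ) → R) (q : Fin n →₀ ℕ) (c : R) :
    fn z k e F (monomial q c) = if q ∈ Mk z k e then c * F q else 0 := by
  unfold fn
  split_ifs with h
  · rw [Finset.sum_eq_single_of_mem q h]
    · rw [coeff_monomial, if_pos rfl]
    · intro p _ hp
      rw [coeff_monomial, if_neg (Ne.symm hp), zero_mul]
  · refine Finset.sum_eq_zero fun p hp => ?_
    rw [coeff_monomial, if_neg, zero_mul]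
    rintro rfl
    exact h hp

/-- if `fn (w * x^q) = 0` for all exponents `q` then `fn (w * v) = 0` for all `v` -/
theorem fn_mul_of_monomial (F : (Fin n →₀ ℕ) → R) (w : MvPolynomial (Fin n) R)
    (h : ∀ q : Fin n →₀ ℕ, fn z k e F (w * monomial q 1) = 0) (v : MvPolynomial (Fin n) R) :
    fn z k e F (w * v) = 0 := by
  rw [v.as_sum, Finset.mul_sum, fn_sum]
  refine Finset.sum_eq_zero fun q _ => ?_
  have : w * monomial q (coeff q v) = C (coeff q v) * (w * monomial q 1) := by
    have h2 : (monomial q (coeff q v) : MvPolynomial (Fin n) R) = C (coeff q v) * monomial q 1 := by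
      rw [C_mul_monomial, mul_one]
    rw [h2]; ring
  rw [this, fn_C_mul, h q, mul_zero]

theorem IsAnn.mul {F : (Fin n →₀ ℕ) → R} {u : MvPolynomial (Fin n) R} (h : IsAnn z k e F u)
    (w : MvPolynomial (Fin n) R) : IsAnn z k e F (u * w) := by
  intro v
  rw [mul_assoc]
  exact h _

end fnlemmas

/-- coefficients of the generic form -/
theorem coeff_gf {ι : Type} {n : ℕ} (d : ι → ℕ) (l : ι) (p : Fin n →₀ ℕ) :
    coeff p (gf d l) = if ∑ i, p i = d l then X (l, p) else 0 := by
  unfold gf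
  rw [coeff_sum]
  split_ifs with h
  · rw [Finset.sum_eq_single_of_mem p (mem_Mt.2 h)]
    · rw [coeff_monomial, if_pos rfl]
    · intro b _ hb
      rw [coeff_monomial, if_neg hb]
  · refine Finset.sum_eq_zero fun b hb => ?_
    rw [coeff_monomial, if_neg]
    rintro rfl
    exact h (mem_Mt.1 hb)

theorem coeff_sf {ι : Type} {n : ℕ} (d : ι → ℕ) (c : ι × (Fin n →₀ ℕ) → ℂ) (l : ι)
    (p : Fin n →₀ ℕ) : coeff p (sf d c l) = if ∑ i, p i = d l then c (l, p) else 0 := by
  unfold sf
  rw [coeff_sum]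
  split_ifs with h
  · rw [Finset.sum_eq_single_of_mem p (mem_Mt.2 h)]
    · rw [coeff_monomial, if_pos rfl]
    · intro b _ hb
      rw [coeff_monomial, if_neg hb]
  · refine Finset.sum_eq_zero fun b hb => ?_
    rw [coeff_monomial, if_neg]
    rintro rfl
    exact h (mem_Mt.1 hb)

theorem gf_hom {ι : Type} {n : ℕ} (d : ι → ℕ) (l : ι) : (gf (n := n) d l).IsHomogeneous (d l) := by
  rw [isHomogeneous_iff_Mt]
  intro p hp
  rw [coeff_gf] at hp
  by_contra h
  rw [if_neg h] at hp
  exact hp rfl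

theorem sf_hom {ι : Type} {n : ℕ} (d : ι → ℕ) (c : ι × (Fin n →₀ ℕ) → ℂ) (l : ι) :
    (sf d c l).IsHomogeneous (d l) := by
  rw [isHomogeneous_iff_Mt]
  intro p hp
  rw [coeff_sf] at hp
  by_contra h
  rw [if_neg h] at hp
  exact hp rfl

/-- the specialised generic form -/
theorem map_gf {ι : Type} {n : ℕ} (d : ι → ℕ) (c : ι × (Fin n →₀ ℕ) → ℂ) (l : ι) :
    MvPolynomial.map (MvPolynomial.eval c) (gf (n := n) d l) = sf d c l := by
  ext p
  rw [coeff_map, coeff_gf, coeff_sf]
  split_ifs <;> simp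

end Pool.Agent.Work.MP_2ad852_ag.GF
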