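import Mathlib

/-!
# Generic forms, Lefschetz properties: definitions of the block GF

Variables `x_i`, `i : Fin n`; exponents `p : Fin n →₀ ℕ`; `z : Fin n` is the distinguished variable.
-/

namespace Pool.Agent.Work.MP_2ad852_ag.GF

open MvPolynomial Finset

/-- exponents of degree `t` in `n` variables -/
def Mt (n t : ℕ) : Finset (Fin n →₀ ℕ) := Finset.finsuppAntidiag Finset.univ t

theorem mem_Mt {n t : ℕ} {p : Fin n →₀ ℕ} : p ∈ Mt n t ↔ ∑ i, p i = t := by
  simp [Mt, Finset.mem_finsuppAntidiag]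

/-- exponents of degree `t` whose exponent of `z` is `< k` -/
def Mk {n : ℕ} (z : Fin n) (k t : ℕ) : Finset (Fin n →₀ ℕ) := (Mt n t).filter (fun p => p z < k)

theorem mem_Mk {n : ℕ} {z : Fin n} {k t : ℕ} {p : Fin n →₀ ℕ} :
    p ∈ Mk z k t ↔ (∑ i, p i = t) ∧ p z < k := by
  simp [Mk, mem_Mt]

/-- the ring of coefficients: polynomials in the (generic) coefficients of the forms -/
abbrev Rg (ι : Type) (n : ℕ) : Type := MvPolynomial (ι × (Fin n →₀ ℕ)) ℂ

/-- the generic form of degree `d l` -/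
noncomputable def gf {ι : Type} {n : ℕ} (d : ι → ℕ) (l : ι) : MvPolynomial (Fin n) (Rg ι n) :=
  ∑ b ∈ Mt n (d l), monomial b (X (l, b))

/-- the form of degree `d l` with coefficients `c (l, ·)` -/
noncomputable def sf {ι : Type} {n : ℕ} (d : ι → ℕ) (c : ι × (Fin n →₀ ℕ) → ℂ) (l : ι) :
    MvPolynomial (Fin n) ℂ :=
  ∑ b ∈ Mt n (d l), monomial b (c (l, b))

/-- the functional on forms of degree `e` modulo `z ^ k` with values `F p` on the monomials;
it ignores all monomials outside `Mk z k e` -/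
noncomputable def fn {n : ℕ} {R : Type} [CommRing R] (z : Fin n) (k e : ℕ)
    (F : (Fin n →₀ ℕ) → R) (u : MvPolynomial (Fin n) R) : R :=
  ∑ p ∈ Mk z k e, coeff p u * F p

/-- left kernel: `F` is a nonzero functional on degree `e` modulo `z ^ k` which kills the generic
forms -/
structure LKw {ι : Type} {n : ℕ} (z : Fin n) (k e : ℕ) (d : ι → ℕ)
    (F : (Fin n →₀ ℕ) → Rg ι n) : Prop where
  ne : ∃ p ∈ Mk z k e, F p ≠ 0
  kill : ∀ (l : ι) (v : MvPolynomial (Fin n) (Rg ι n)), fn z k e F (gf d l * v) = 0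

def LK {ι : Type} {n : ℕ} (z : Fin n) (k e : ℕ) (d : ι → ℕ) : Prop :=
  ∃ F : (Fin n →₀ ℕ) → Rg ι n, LKw z k e d F

/-- right kernel: `a` is a syzygy in degree `e` modulo `z ^ k`, nonzero modulo `z ^ k` -/
structure RKw {ι : Type} [Fintype ι] {n : ℕ} (z : Fin n) (k e : ℕ) (d : ι → ℕ)
    (a : ι → MvPolynomial (Fin n) (Rg ι n)) : Prop where
  hom : ∀ l, (a l).IsHomogeneous (e - d l)
  zero : ∀ l, e < d l → a l = 0
  kill : ∀ p ∈ Mk z k e, coeff p (∑ l, gf d l * a l) = 0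
  ne : ∃ l, ∃ p : Fin n →₀ ℕ, p z < k ∧ coeff p (a l) ≠ 0

def RK {ι : Type} [Fintype ι] {n : ℕ} (z : Fin n) (k e : ℕ) (d : ι → ℕ) : Prop :=
  ∃ a : ι → MvPolynomial (Fin n) (Rg ι n), RKw z k e d a

/-- the key of the monomial order used inside one degree: a smaller `z`-exponent is bigger -/
noncomputable def key {n : ℕ} (z : Fin n) (p : Fin n →₀ ℕ) : (MonomialOrder.degLex (σ := Fin n)).syn :=
  MonomialOrder.degLex.toSyn (p.erase z)

/-- `u` annihilates `F` -/
def IsAnn {n : ℕ} {R : Type} [CommRing R] (z : Fin n) (k e : ℕ) (F : (Fin n →₀ ℕ) → R)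
    (u : MvPolynomial (Fin n) R) : Prop :=
  ∀ v : MvPolynomial (Fin n) R, fn z k e F (u * v) = 0

/-- `q` is the leading exponent of a homogeneous element of the annihilator of `F` -/
def IsLead {n : ℕ} {R : Type} [CommRing R] (z : Fin n) (k e : ℕ) (F : (Fin n →₀ ℕ) → R)
    (q : Fin n →₀ ℕ) : Prop :=
  ∃ u : MvPolynomial (Fin n) R, u.IsHomogeneous (∑ i, q i) ∧ IsAnn z k e F u ∧ coeff q u ≠ 0 ∧
    ∀ p, coeff p u ≠ 0 → key z p ≤ key z q

open Classical in
/-- monomials of degree `e` not divisible by the square of an element of `L` -/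
noncomputable def Bad {n : ℕ} (z : Fin n) (k e : ℕ) (L : (Fin n →₀ ℕ) → Prop) :
    Finset (Fin n →₀ ℕ) :=
  (Mk z k e).filter (fun p => ∀ q, L q → ¬ q + q ≤ p)

open Classical in
/-- monomials of degree `t` outside `L` -/
noncomputable def Std {n : ℕ} (z : Fin n) (k t : ℕ) (L : (Fin n →₀ ℕ) → Prop) :
    Finset (Fin n →₀ ℕ) :=
  (Mk z k t).filter (fun q => ¬ L q)

/-- every form of degree `e` is in the ideal of the `f l` modulo `z ^ k` -/
def SurjAt {ι : Type} {n : ℕ} (z : Fin n) (k e : ℕ) (f : ι → MvPolynomial (Fin n) ℂ) : Prop :=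
  ∀ h : MvPolynomial (Fin n) ℂ, h.IsHomogeneous e →
    ∃ w ∈ Ideal.span (Set.range f), X z ^ k ∣ h - w

/-- all syzygies of the `f l` of degree `e` modulo `z ^ k` are zero modulo `z ^ k` -/
def InjAt {ι : Type} [Fintype ι] {n : ℕ} (z : Fin n) (k e : ℕ) (d : ι → ℕ)
    (f : ι → MvPolynomial (Fin n) ℂ) : Prop :=
  ∀ a : ι → MvPolynomial (Fin n) ℂ, (∀ l, (a l).IsHomogeneous (e - d l)) →
    (∀ l, e < d l → a l = 0) → X z ^ k ∣ ∑ l, f l * a l → ∀ l, X z ^ k ∣ a l

/-- the columns of the matrix of the generic forms in degree `e` modulo `z ^ k` -/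
abbrev Cols {ι : Type} {n : ℕ} (z : Fin n) (k e : ℕ) (d : ι → ℕ) : Type :=
  Σ l : {l : ι // d l ≤ e}, {q : Fin n →₀ ℕ // q ∈ Mk z k (e - d l.1)}

/-- the rows -/
abbrev Rows {n : ℕ} (z : Fin n) (k e : ℕ) : Type := {p : Fin n →₀ ℕ // p ∈ Mk z k e}

/-- the matrix of `(a_l) ↦ ∑ f_l a_l` in degree `e` modulo `z ^ k`, with coefficients in any ring -/
noncomputable def mat {ι : Type} {n : ℕ} {R : Type} [CommRing R] (z : Fin n) (k e : ℕ) (d : ι → ℕ)
    (f : ι → MvPolynomial (Fin n) R) : Matrix (Rows z k e) (Cols z k e d) R :=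
  fun p c => coeff p.1 (f c.1.1 * monomial c.2.1 1)

/-- the number of columns -/
def nC {ι : Type} [Fintype ι] {n : ℕ} (z : Fin n) (k e : ℕ) (d : ι → ℕ) : ℕ :=
  ∑ l ∈ (Finset.univ : Finset ι).filter (fun l => d l ≤ e), (Mk z k (e - d l)).card

end Pool.Agent.Work.MP_2ad852_ag.GF
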