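import Mathlib
import Pool.Agent.Work.MP_2ad852_ag.GF.Stmts

namespace Pool.Agent.Work.MP_2ad852_ag.GF

open Finset

/-- the exponent vector with value `c` at `z`, `x s` at the other places and the rest at `j` -/
noncomputable def clw {n : ℕ} (z j : Fin n) (e : ℕ)
    (y : ℕ × ({s : Fin n // s ≠ z ∧ s ≠ j} → ℕ)) : Fin n →₀ ℕ :=
  Finsupp.equivFunOnFinite.symm (fun s =>
    if h1 : s = z then y.1 else if h2 : s = j then e - y.1 - ∑ t, y.2 t else y.2 ⟨s, h1, h2⟩)

theorem clw_z {n : ℕ} (z j : Fin n) (e : ℕ) (y : ℕ × ({s : Fin n // s ≠ z ∧ s ≠ j} → ℕ)) :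
    clw z j e y z = y.1 := by
  simp [clw]

theorem clw_j {n : ℕ} (z j : Fin n) (hj : j ≠ z) (e : ℕ)
    (y : ℕ × ({s : Fin n // s ≠ z ∧ s ≠ j} → ℕ)) :
    clw z j e y j = e - y.1 - ∑ t, y.2 t := by
  simp [clw, hj]

theorem clw_s {n : ℕ} (z j : Fin n) (e : ℕ) (y : ℕ × ({s : Fin n // s ≠ z ∧ s ≠ j} → ℕ))
    (s : {s : Fin n // s ≠ z ∧ s ≠ j}) : clw z j e y s.1 = y.2 s := by
  simp [clw, s.2.1, s.2.2]

theorem clw_sum {n : ℕ} (z j : Fin n) (hj : j ≠ z) (e : ℕ)
    (y : ℕ × ({s : Fin n // s ≠ z ∧ s ≠ j} → ℕ)) (hy : y.1 + ∑ t, y.2 t ≤ e) :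
    ∑ s, clw z j e y s = e := by
  classical
  have h1 : ∑ s, clw z j e y s = clw z j e y z + ∑ s ∈ univ.erase z, clw z j e y s := by
    rw [Finset.add_sum_erase _ _ (Finset.mem_univ z)]
  have hjm : j ∈ univ.erase z := by simp [hj]
  have h2 : ∑ s ∈ univ.erase z, clw z j e y s
      = clw z j e y j + ∑ s ∈ (univ.erase z).erase j, clw z j e y s := by
    rw [Finset.add_sum_erase _ _ hjm]
  have h3 : ∑ s ∈ (univ.erase z).erase j, clw z j e y s = ∑ t, y.2 t := by
    have h4 : ∑ t : {s : Fin n // s ≠ z ∧ s ≠ j}, clw z j e y t.1 = ∑ t, y.2 t :=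
      Finset.sum_congr rfl (fun t _ => clw_s z j e y t)
    rw [← h4]
    symm
    apply Finset.sum_subtype ((univ.erase z).erase j) (p := fun s => s ≠ z ∧ s ≠ j) ?_ (fun s => clw z j e y s) |>.symm
    intro s
    simp [and_comm]
  rw [h1, h2, h3, clw_z, clw_j z j hj]
  omega

theorem pr_CntLow : S_CntLow := by
  classical
  intro n z k e hn hk
  obtain ⟨j, hj⟩ : ∃ j : Fin n, j ≠ z := by
    haveI : Nontrivial (Fin n) := Fin.nontrivial_iff_two_le.2 hn
    exact exists_ne z
  set M := e / (2 * n) with hM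
  set c0 := min k (e / 2 + 1) with hc0
  have hcard : Fintype.card {s : Fin n // s ≠ z ∧ s ≠ j} = n - 2 := by
    rw [Fintype.card_subtype]
    have : (Finset.univ.filter (fun s : Fin n => s ≠ z ∧ s ≠ j)) = (univ.erase z).erase j := by
      ext s; simp [and_comm]
    rw [this, Finset.card_erase_of_mem (by simp [hj]), Finset.card_erase_of_mem (by simp)]
    simp
    omega
  have hle : c0 * (M + 1) ^ (n - 2) ≤ (Mk z k e).card := by
    have hdc : ((Finset.range c0) ×ˢ
        (Fintype.piFinset (fun _ : {s : Fin n // s ≠ z ∧ s ≠ j} => Finset.range (M + 1)))).card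
        = c0 * (M + 1) ^ (n - 2) := by
      rw [Finset.card_product, Fintype.card_piFinset]
      simp [hcard]
    rw [← hdc]
    refine Finset.card_le_card_of_injOn (clw z j e) ?_ ?_
    · intro y hy
      rw [Finset.mem_coe, Finset.mem_product, Finset.mem_range, Fintype.mem_piFinset] at hy
      rw [Finset.mem_coe, mem_Mk, clw_z]
      refine ⟨clw_sum z j hj e y ?_, lt_of_lt_of_le hy.1 (min_le_left _ _)⟩
      have h1 : ∑ t, y.2 t ≤ (n - 2) * M := by
        calc ∑ t, y.2 t ≤ ∑ _t : {s : Fin n // s ≠ z ∧ s ≠ j}, M :=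
              Finset.sum_le_sum (fun t _ => by
                have := hy.2 t
                rw [Finset.mem_range] at this
                omega)
          _ = (n - 2) * M := by simp [hcard]
      have h2 : y.1 < e / 2 + 1 := lt_of_lt_of_le hy.1 (min_le_right _ _)
      have h3 : 2 * ((n - 2) * M) ≤ e := by
        calc 2 * ((n - 2) * M) ≤ 2 * (n * M) :=
              Nat.mul_le_mul_left 2 (Nat.mul_le_mul_right M (Nat.sub_le _ _))
          _ = (2 * n) * M := by ring
          _ ≤ e := Nat.mul_div_le _ _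
      omega
    · intro y _ y' _ h
      have hz := congrArg (fun p : Fin n →₀ ℕ => p z) h
      simp only [clw_z] at hz
      refine Prod.ext hz ?_
      funext s
      have := congrArg (fun p : Fin n →₀ ℕ => p s.1) h
      simpa only [clw_s] using this
  have hk2 : k ≤ 2 * c0 := by omega
  have he2 : e ≤ (2 * n) * (M + 1) := by
    have : e < (2 * n) * (M + 1) := Nat.lt_mul_div_succ e (by omega)
    exact this.le
  calc k * e ^ (n - 2) ≤ (2 * c0) * ((2 * n) * (M + 1)) ^ (n - 2) :=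
        Nat.mul_le_mul hk2 (Nat.pow_le_pow_left he2 _)
    _ = 2 * (2 * n) ^ (n - 2) * (c0 * (M + 1) ^ (n - 2)) := by rw [Nat.mul_pow]; ring
    _ ≤ 2 * (2 * n) ^ (n - 2) * (Mk z k e).card := Nat.mul_le_mul_left _ hle

end Pool.Agent.Work.MP_2ad852_ag.GF
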