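import Mathlib
import Pool.Agent.Work.MP_2ad852_ag.GF.Stmts

/-!
# Item CntUp
-/

namespace Pool.Agent.Work.MP_2ad852_ag.GF

open Finset

theorem pr_CntUp : S_CntUp := by
  classical
  intro n z k t hn
  obtain ⟨j, hj⟩ : ∃ j : Fin n, j ≠ z := by
    have : Nontrivial (Fin n) := Fin.nontrivial_iff_two_le.2 hn
    exact exists_ne z
  set U : Finset (Fin n) := (Finset.univ.erase z).erase j with hU
  have hUc : U.card = n - 2 := by
    rw [hU, Finset.card_erase_of_mem (Finset.mem_erase.2 ⟨hj, Finset.mem_univ _⟩),
      Finset.card_erase_of_mem (Finset.mem_univ _), Finset.card_univ, Fintype.card_fin]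
    omega
  let T : Finset (ℕ × (U → ℕ)) :=
    (Finset.range (min k (t + 1))) ×ˢ (Fintype.piFinset fun _ : U => Finset.range (t + 1))
  have hT : T.card = min k (t + 1) * (t + 1) ^ (n - 2) := by
    simp only [T]
    rw [Finset.card_product, Finset.card_range, Fintype.card_piFinset, Finset.prod_const,
      Finset.card_range, Finset.card_univ, Fintype.card_coe, hUc]
  rw [← hT]
  apply Finset.card_le_card_of_injOn (fun p => (p z, fun i : U => p i))
  · intro p hp
    have hp' := mem_Mk.1 (Finset.mem_coe.1 hp)
    have hle : ∀ i, p i ≤ t := by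
      intro i
      rw [← hp'.1]
      exact Finset.single_le_sum (f := fun i => p i) (fun _ _ => Nat.zero_le _)
        (Finset.mem_univ i)
    simp only [T]
    rw [Finset.mem_coe, Finset.mem_product]
    constructor
    · rw [Finset.mem_range]
      have := hle z
      exact lt_min hp'.2 (by omega)
    · rw [Fintype.mem_piFinset]
      intro i
      rw [Finset.mem_range]
      have := hle i
      show p i < t + 1
      omega
  · intro p hp q hq hpq
    have hp' := mem_Mk.1 (Finset.mem_coe.1 hp)
    have hq' := mem_Mk.1 (Finset.mem_coe.1 hq)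
    simp only [Prod.mk.injEq] at hpq
    have hne : ∀ i, i ≠ j → p i = q i := by
      intro i hi
      by_cases hz : i = z
      · rw [hz]; exact hpq.1
      · exact congrFun hpq.2 ⟨i, Finset.mem_erase.2 ⟨hi, Finset.mem_erase.2 ⟨hz, Finset.mem_univ _⟩⟩⟩
    have hsum : p j + ∑ i ∈ Finset.univ.erase j, p i = q j + ∑ i ∈ Finset.univ.erase j, q i := by
      rw [Finset.add_sum_erase _ _ (Finset.mem_univ j), Finset.add_sum_erase _ _ (Finset.mem_univ j),
        hp'.1, hq'.1]
    have hs2 : ∑ i ∈ Finset.univ.erase j, p i = ∑ i ∈ Finset.univ.erase j, q i :=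
      Finset.sum_congr rfl fun i hi => hne i (Finset.ne_of_mem_erase hi)
    ext i
    by_cases hi : i = j
    · rw [hi]; omega
    · exact hne i hi

end Pool.Agent.Work.MP_2ad852_ag.GF
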