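import Mathlib
import Pool.Agent.Work.MP_2ad852_ag.GF.Stmts

namespace Pool.Agent.Work.MP_2ad852_ag.GF

open MvPolynomial Finset

theorem CombG_Mk_min {n : ℕ} (z : Fin n) (k e t : ℕ) (ht : t ≤ e) :
    Mk z (min k (e + 1)) t = Mk z k t := by
  ext p
  rw [mem_Mk, mem_Mk]
  constructor
  · rintro ⟨h1, h2⟩
    exact ⟨h1, by omega⟩
  · rintro ⟨h1, h2⟩
    have : p z ≤ ∑ i, p i := Finset.single_le_sum (f := fun i => p i) (fun _ _ => Nat.zero_le _)
      (Finset.mem_univ z)
    exact ⟨h1, by omega⟩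

theorem CombG_ceil (a t : ℕ) (ht : 1 ≤ t) :
    a ≤ (a + t - 1) / t * t ∧ (a + t - 1) / t * t ≤ a + t - 1 := by
  constructor
  · have h := Nat.div_add_mod (a + t - 1) t
    have h2 := Nat.mod_lt (a + t - 1) (show 0 < t by omega)
    rw [mul_comm] at h
    omega
  · exact Nat.div_mul_le_self _ _

/-- the product of `MapG` when `j ≠ z` -/
theorem CombG_prod1 {n : ℕ} (z i j : Fin n) (hiz : i ≠ z) (hji : j ≠ i) (hjz : j ≠ z)
    (a b c : ℕ) :
    3 ≤ n ∧ ∏ s ∈ Finset.univ.erase j, (if s = i then a else if s = z then b else c) =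
      a * (b * c ^ (n - 3)) := by
  have h1 : i ∈ (Finset.univ : Finset (Fin n)).erase j := by simp [hji.symm]
  have h2 : z ∈ ((Finset.univ : Finset (Fin n)).erase j).erase i := by
    simp [hjz.symm, hiz.symm]
  have hc1 : (((Finset.univ : Finset (Fin n)).erase j)).card = n - 1 := by
    rw [Finset.card_erase_of_mem (Finset.mem_univ j), Finset.card_univ, Fintype.card_fin]
  have hc2 : (((Finset.univ : Finset (Fin n)).erase j).erase i).card = n - 2 := by
    rw [Finset.card_erase_of_mem h1, hc1]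
    omega
  have hc3 : ((((Finset.univ : Finset (Fin n)).erase j).erase i).erase z).card = n - 3 := by
    rw [Finset.card_erase_of_mem h2, hc2]
    omega
  have hn : 3 ≤ n := by
    have := Finset.card_pos.2 ⟨z, h2⟩
    omega
  refine ⟨hn, ?_⟩
  rw [← Finset.mul_prod_erase _ _ h1, ← Finset.mul_prod_erase _ _ h2, if_pos rfl,
    if_neg hiz.symm, if_pos rfl]
  congr 2
  rw [← hc3, ← Finset.prod_const]
  apply Finset.prod_congr rfl
  intro s hs
  simp only [Finset.mem_erase] at hs
  rw [if_neg hs.2.1, if_neg hs.1]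

/-- the product of `MapG` when `j = z` -/
theorem CombG_prod2 {n : ℕ} (z i : Fin n) (hiz : i ≠ z) (a b c : ℕ) :
    ∏ s ∈ Finset.univ.erase z, (if s = i then a else if s = z then b else c) =
      a * c ^ (n - 2) := by
  have h1 : i ∈ (Finset.univ : Finset (Fin n)).erase z := by simp [hiz]
  have hc1 : (((Finset.univ : Finset (Fin n)).erase z)).card = n - 1 := by
    rw [Finset.card_erase_of_mem (Finset.mem_univ z), Finset.card_univ, Fintype.card_fin]
  have hc2 : (((Finset.univ : Finset (Fin n)).erase z).erase i).card = n - 2 := by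
    rw [Finset.card_erase_of_mem h1, hc1]
    omega
  rw [← Finset.mul_prod_erase _ _ h1, if_pos rfl]
  congr 1
  rw [← hc2, ← Finset.prod_const]
  apply Finset.prod_congr rfl
  intro s hs
  simp only [Finset.mem_erase] at hs
  rw [if_neg hs.1, if_neg hs.2.1]

/-- arithmetic, first kind -/
theorem CombG_ar1 (n m e t k A B C a M : ℕ) (hn : 3 ≤ n) (hm : 1 ≤ m) (ht : 1 ≤ t) (hk : 1 ≤ k)
    (htm : t ≤ m)
    (hA : A * t ≤ 2 * e) (hB : B * t ≤ 2 * m) (hC : C * min k (t + 1) ≤ 4 * k)
    (ha : a ≤ min k (t + 1) * (t + 1) ^ (n - 2))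
    (hM : k * e ^ (n - 2) ≤ 2 * (2 * n) ^ (n - 2) * M)
    (hρ : (n ^ 2 * (2 ^ (2 * n) * n ^ (n - 1)) * n * (2 * (2 * n) ^ (n - 2))) * m ≤ e) :
    n ^ 2 * ((2 * n * B * (2 * n * C * (n * A) ^ (n - 3))) * a) ≤ M := by
  obtain ⟨r, rfl⟩ : ∃ r, n = r + 3 := ⟨n - 3, by omega⟩
  have e1 : r + 3 - 3 = r := by omega
  have e2 : r + 3 - 2 = r + 1 := by omega
  have e3 : r + 3 - 1 = r + 2 := by omega
  simp only [e1, e2, e3] at ha hM hρ ⊢
  set N := r + 3 with hN
  have h2t : t + 1 ≤ 2 * t := by omega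
  have ha' : a ≤ min k (t + 1) * (2 * t) ^ (r + 1) :=
    ha.trans (Nat.mul_le_mul_left _ (Nat.pow_le_pow_left h2t _))
  have key : (2 * N * B * (2 * N * C * (N * A) ^ r)) * a ≤
      2 ^ (2 * N) * N ^ (r + 2) * (m * k * e ^ r) := by
    calc (2 * N * B * (2 * N * C * (N * A) ^ r)) * a
        ≤ (2 * N * B * (2 * N * C * (N * A) ^ r)) * (min k (t + 1) * (2 * t) ^ (r + 1)) :=
          Nat.mul_le_mul_left _ ha'
      _ = 2 ^ (r + 3) * N ^ (r + 2) * ((B * t) * (C * min k (t + 1)) * (A * t) ^ r) := by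
          rw [mul_pow, mul_pow, mul_pow]
          ring
      _ ≤ 2 ^ (r + 3) * N ^ (r + 2) * ((2 * m) * (4 * k) * (2 * e) ^ r) := by
          gcongr
      _ = 2 ^ (2 * N) * N ^ (r + 2) * (m * k * e ^ r) := by
          rw [hN, mul_pow]
          ring
  set K1 := 2 ^ (2 * N) * N ^ (r + 2) with hK1
  set K2 := 2 * (2 * N) ^ (r + 1) with hK2
  have hK2pos : 0 < K2 := by positivity
  apply Nat.le_of_mul_le_mul_left _ hK2pos
  calc K2 * (N ^ 2 * ((2 * N * B * (2 * N * C * (N * A) ^ r)) * a))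
      ≤ K2 * (N ^ 2 * (K1 * (m * k * e ^ r))) := by
        gcongr
    _ = (N ^ 2 * K1 * 1 * K2 * m) * (k * e ^ r) := by ring
    _ ≤ (N ^ 2 * K1 * N * K2 * m) * (k * e ^ r) := by
        gcongr
        omega
    _ ≤ e * (k * e ^ r) := by gcongr
    _ = k * e ^ (r + 1) := by ring
    _ ≤ K2 * M := hM

/-- arithmetic, second kind -/
theorem CombG_ar2 (n m e t k A B a M : ℕ) (hn : 2 ≤ n) (hm : 1 ≤ m) (ht : 1 ≤ t)
    (hA : A * t ≤ 2 * e) (hB : B * t ≤ 2 * m)
    (ha : a ≤ min k (t + 1) * (t + 1) ^ (n - 2)) (hek : e ≤ n * k)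
    (hM : k * e ^ (n - 2) ≤ 2 * (2 * n) ^ (n - 2) * M)
    (hρ : (n ^ 2 * (2 ^ (2 * n) * n ^ (n - 1)) * n * (2 * (2 * n) ^ (n - 2))) * m ≤ e) :
    n ^ 2 * ((2 * n * B * (n * A) ^ (n - 2)) * a) ≤ M := by
  obtain ⟨r, rfl⟩ : ∃ r, n = r + 2 := ⟨n - 2, by omega⟩
  have e2 : r + 2 - 2 = r := by omega
  have e3 : r + 2 - 1 = r + 1 := by omega
  simp only [e2, e3] at ha hM hρ ⊢
  set N := r + 2 with hN
  have h2t : t + 1 ≤ 2 * t := by omega
  have ha' : a ≤ (2 * t) * (2 * t) ^ r :=
    ha.trans (Nat.mul_le_mul ((min_le_right _ _).trans h2t) (Nat.pow_le_pow_left h2t _))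
  have key : (2 * N * B * (N * A) ^ r) * a ≤ 2 ^ (2 * N) * N ^ (r + 1) * (m * e ^ r) := by
    calc (2 * N * B * (N * A) ^ r) * a
        ≤ (2 * N * B * (N * A) ^ r) * ((2 * t) * (2 * t) ^ r) := Nat.mul_le_mul_left _ ha'
      _ = 2 ^ (r + 2) * N ^ (r + 1) * ((B * t) * (A * t) ^ r) := by
          rw [mul_pow, mul_pow, mul_pow]
          ring
      _ ≤ 2 ^ (r + 2) * N ^ (r + 1) * ((2 * m) * (2 * e) ^ r) := by
          gcongr
      _ = 2 ^ (2 * r + 3) * N ^ (r + 1) * (m * e ^ r) := by
          rw [mul_pow]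
          ring
      _ ≤ 2 ^ (2 * N) * N ^ (r + 1) * (m * e ^ r) := by
          gcongr
          · norm_num
          · omega
  set K1 := 2 ^ (2 * N) * N ^ (r + 1) with hK1
  set K2 := 2 * (2 * N) ^ r with hK2
  have hK2pos : 0 < K2 := by positivity
  have hNpos : 0 < N := by omega
  apply Nat.le_of_mul_le_mul_left _ (Nat.mul_pos hNpos hK2pos)
  calc N * K2 * (N ^ 2 * ((2 * N * B * (N * A) ^ r) * a))
      ≤ N * K2 * (N ^ 2 * (K1 * (m * e ^ r))) := by
        gcongr
    _ = (N ^ 2 * K1 * N * K2 * m) * e ^ r := by ring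
    _ ≤ e * e ^ r := by gcongr
    _ ≤ (N * k) * e ^ r := by gcongr
    _ = N * (k * e ^ r) := by ring
    _ ≤ N * (K2 * M) := by gcongr
    _ = N * K2 * M := by ring

theorem pr_CombG (hUp : S_CntUp) (hLow : S_CntLow) (hMap : S_MapG) : S_CombG := by
  classical
  intro n hn
  set ρ := n ^ 2 * (2 ^ (2 * n) * n ^ (n - 1)) * n * (2 * (2 * n) ^ (n - 2)) with hρ
  have hρ2n : 2 * n ≤ ρ := by
    have h1 : 1 ≤ n ^ 2 := Nat.one_le_pow _ _ (by omega)
    have h2 : 1 ≤ 2 ^ (2 * n) * n ^ (n - 1) :=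
      Nat.mul_pos (Nat.pow_pos (by norm_num)) (Nat.pow_pos (by omega))
    have h3 : 1 ≤ (2 * n) ^ (n - 2) := Nat.one_le_pow _ _ (by omega)
    calc 2 * n = 1 * 1 * n * (2 * 1) := by ring
      _ ≤ ρ := by rw [hρ]; gcongr
  refine ⟨ρ, by omega, ?_⟩
  intro z k0 e t m L μ hk0 hLμ hμz hμ ht htm hρe
  have hm : 1 ≤ m := by omega
  have hme : m ≤ e := by
    have : 1 * m ≤ ρ * m := Nat.mul_le_mul_right _ (by omega)
    omega
  -- reduce to `k ≤ e + 1`
  have hBadmin : Bad z (min k0 (e + 1)) e L = Bad z k0 e L := by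
    unfold Bad
    rw [CombG_Mk_min z k0 e e le_rfl]
  have hStdmin : Std z (min k0 (e + 1)) t L = Std z k0 t L := by
    unfold Std
    rw [CombG_Mk_min z k0 e t (by omega)]
  rw [← hBadmin, ← hStdmin, ← CombG_Mk_min z k0 e t (by omega), ← CombG_Mk_min z k0 e e le_rfl]
  set k := min k0 (e + 1) with hkdef
  have hk : 1 ≤ k := by omega
  have hke : k ≤ e + 1 := by omega
  clear_value k
  set A := (e + t - 1) / t with hAdef
  set B := (m + t - 1) / t with hBdef
  set C := (k + t - 1) / t with hCdef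
  obtain ⟨hA1, hA2⟩ := CombG_ceil e t ht
  obtain ⟨hB1, hB2⟩ := CombG_ceil m t ht
  obtain ⟨hC1, hC2⟩ := CombG_ceil k t ht
  rw [← hAdef] at hA1 hA2
  rw [← hBdef] at hB1 hB2
  rw [← hCdef] at hC1 hC2
  have hA : A * t ≤ 2 * e := by omega
  have hB : B * t ≤ 2 * m := by omega
  have hC : C * min k (t + 1) ≤ 4 * k := by
    by_cases hkt : k ≤ t
    · have hC' : C ≤ 1 := by
        by_contra hcon
        have h2 : 2 * t ≤ C * t := Nat.mul_le_mul_right _ (by omega)
        omega
      calc C * min k (t + 1) ≤ 1 * k := Nat.mul_le_mul hC' (min_le_left _ _)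
        _ ≤ 4 * k := by omega
    · calc C * min k (t + 1) ≤ C * (2 * t) := Nat.mul_le_mul_left _ ((min_le_right _ _).trans (by omega))
        _ = 2 * (C * t) := by ring
        _ ≤ 4 * k := by omega
  have ha := hUp n z k t hn
  have hM := hLow n z k e hn hke
  -- the pieces
  set T : Fin n × Fin n → Finset (Fin n →₀ ℕ) := fun ij =>
    (Bad z k e L).filter (fun p => (ij.1 ≠ z ∧ ij.2 ≠ ij.1) ∧ (p ij.1 < 2 * m ∧ e ≤ n * p ij.2))
    with hT
  have hcover : Bad z k e L ⊆ (Finset.univ : Finset (Fin n × Fin n)).biUnion T := by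
    intro p hp
    have hp' := hp
    unfold Bad at hp'
    rw [Finset.mem_filter, mem_Mk] at hp'
    obtain ⟨⟨hpe, hpz⟩, hpL⟩ := hp'
    have h1 := hpL μ hLμ
    have h2 : ∃ i, p i < μ i + μ i := by
      by_contra hcon
      push Not at hcon
      exact h1 (fun i => by simpa using hcon i)
    obtain ⟨i, hi⟩ := h2
    have hμi : μ i ≤ m := by
      rw [← hμ]
      exact Finset.single_le_sum (f := fun i => μ i) (fun _ _ => Nat.zero_le _)
        (Finset.mem_univ i)
    have hiz : i ≠ z := by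
      rintro rfl
      omega
    have h3 : ∃ j, e ≤ n * p j := by
      by_contra hcon
      push Not at hcon
      have h4 : ∑ j, n * p j < ∑ _j : Fin n, e := by
        apply Finset.sum_lt_sum_of_nonempty
        · exact ⟨z, Finset.mem_univ z⟩
        · intro j _
          exact hcon j
      rw [← Finset.mul_sum, hpe] at h4
      simp at h4
    obtain ⟨j, hj⟩ := h3
    have hji : j ≠ i := by
      rintro rfl
      have h5 : n * p j < n * (2 * m) := Nat.mul_lt_mul_of_pos_left (by omega) (by omega)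
      have h6 : 2 * n * m ≤ ρ * m := Nat.mul_le_mul_right _ hρ2n
      have h7 : n * (2 * m) = 2 * n * m := by ring
      omega
    rw [Finset.mem_biUnion]
    refine ⟨(i, j), Finset.mem_univ _, ?_⟩
    rw [hT]
    simp only [Finset.mem_filter]
    exact ⟨hp, ⟨hiz, hji⟩, by omega, hj⟩
  have hpiece : ∀ ij : Fin n × Fin n, n ^ 2 * ((T ij).card * (Mk z k t).card) ≤
      (Std z k t L).card * (Mk z k e).card := by
    rintro ⟨i, j⟩
    by_cases hij : i ≠ z ∧ j ≠ i
    · obtain ⟨hiz, hji⟩ := hij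
      have hTeq : T (i, j) = (Bad z k e L).filter (fun p => p i < 2 * m ∧ e ≤ n * p j) := by
        rw [hT]
        apply Finset.filter_congr
        intro p _
        simp only [ne_eq, and_iff_right_iff_imp]
        intro _
        exact ⟨hiz, hji⟩
      have h2nm : 2 * n * m ≤ e := (Nat.mul_le_mul_right _ hρ2n).trans hρe
      have hmap := hMap n z i j k e t m A B C L hn hiz hji ht hk htm h2nm hA1 hB1 hC1
      have hmap' : (T (i, j)).card ≤ (Std z k t L).card *
          ∏ s ∈ Finset.univ.erase j,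
            (if s = i then 2 * n * B else if s = z then 2 * n * C else n * A) := by
        rw [hTeq]
        convert hmap
      by_cases hjz : j = z
      · rcases Nat.eq_zero_or_pos (T (i, j)).card with h0 | hpos
        · rw [h0]
          simp
        · obtain ⟨p, hp⟩ := Finset.card_pos.1 hpos
          rw [hTeq, Finset.mem_filter] at hp
          have hpz : p z < k := by
            have := hp.1
            unfold Bad at this
            rw [Finset.mem_filter, mem_Mk] at this
            exact this.1.2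
          have hek : e ≤ n * k := by
            have h8 := hp.2.2
            rw [hjz] at h8
            exact h8.trans (Nat.mul_le_mul_left _ hpz.le)
          rw [hjz, CombG_prod2 z i hiz] at hmap'
          have har := CombG_ar2 n m e t k A B (Mk z k t).card (Mk z k e).card hn hm ht hA hB ha
            hek hM hρe
          rw [hjz]
          calc n ^ 2 * ((T (i, z)).card * (Mk z k t).card)
              ≤ n ^ 2 * (((Std z k t L).card * (2 * n * B * (n * A) ^ (n - 2))) *
                (Mk z k t).card) := by gcongr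
            _ = (Std z k t L).card * (n ^ 2 * ((2 * n * B * (n * A) ^ (n - 2)) *
                (Mk z k t).card)) := by ring
            _ ≤ (Std z k t L).card * (Mk z k e).card := by gcongr
      · obtain ⟨hn3, hprod⟩ := CombG_prod1 z i j hiz hji hjz (2 * n * B) (2 * n * C) (n * A)
        rw [hprod] at hmap'
        have har := CombG_ar1 n m e t k A B C (Mk z k t).card (Mk z k e).card hn3 hm ht hk htm
          hA hB hC ha hM hρe
        calc n ^ 2 * ((T (i, j)).card * (Mk z k t).card)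
            ≤ n ^ 2 * (((Std z k t L).card * (2 * n * B * (2 * n * C * (n * A) ^ (n - 3)))) *
              (Mk z k t).card) := by gcongr
          _ = (Std z k t L).card * (n ^ 2 * ((2 * n * B * (2 * n * C * (n * A) ^ (n - 3))) *
              (Mk z k t).card)) := by ring
          _ ≤ (Std z k t L).card * (Mk z k e).card := by gcongr
    · have : T (i, j) = ∅ := by
        rw [hT]
        apply Finset.filter_eq_empty_iff.2
        intro p _ hcon
        exact hij hcon.1
      rw [this]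
      simp
  have hnpos : 0 < n ^ 2 := Nat.pow_pos (by omega)
  apply Nat.le_of_mul_le_mul_left _ hnpos
  calc n ^ 2 * ((Bad z k e L).card * (Mk z k t).card)
      ≤ n ^ 2 * ((∑ ij : Fin n × Fin n, (T ij).card) * (Mk z k t).card) := by
        gcongr
        exact (Finset.card_le_card hcover).trans Finset.card_biUnion_le
    _ = ∑ ij : Fin n × Fin n, n ^ 2 * ((T ij).card * (Mk z k t).card) := by
        rw [Finset.sum_mul, Finset.mul_sum]
    _ ≤ ∑ _ij : Fin n × Fin n, (Std z k t L).card * (Mk z k e).card :=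
        Finset.sum_le_sum fun ij _ => hpiece ij
    _ = n ^ 2 * ((Std z k t L).card * (Mk z k e).card) := by
        rw [Finset.sum_const, Finset.card_univ, Fintype.card_prod, Fintype.card_fin, smul_eq_mul]
        ring

end Pool.Agent.Work.MP_2ad852_ag.GF
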