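import Pool.Agent.Work.MP_2ad852_ag.GF.Stmts

/-!
# Item CombU of the block GF
-/

namespace Pool.Agent.Work.MP_2ad852_ag.GF

open MvPolynomial Finset

/-- the exponents modulo `2` -/
noncomputable def cuM {n : ℕ} (p : Fin n →₀ ℕ) : Fin n →₀ ℕ := p.mapRange (fun x => x % 2) rfl

/-- half of the exponents -/
noncomputable def cuH {n : ℕ} (p : Fin n →₀ ℕ) : Fin n →₀ ℕ := p.mapRange (fun x => x / 2) rfl

theorem cuM_apply {n : ℕ} (p : Fin n →₀ ℕ) (i : Fin n) : cuM p i = p i % 2 := rfl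

theorem cuH_apply {n : ℕ} (p : Fin n →₀ ℕ) (i : Fin n) : cuH p i = p i / 2 := rfl

theorem cu_eq {n : ℕ} (p : Fin n →₀ ℕ) : cuH p + cuH p + cuM p = p := by
  ext i
  simp only [Finsupp.add_apply, cuM_apply, cuH_apply]
  omega

theorem cu_mem {n : ℕ} {U : Finset (Fin n)} {e : ℕ} {p : Fin n →₀ ℕ} :
    p ∈ Finset.finsuppAntidiag U e ↔ ∑ i ∈ U, p i = e ∧ ∀ i, i ∉ U → p i = 0 := by
  rw [Finset.mem_finsuppAntidiag]
  constructor
  · rintro ⟨h1, h2⟩
    refine ⟨h1, fun i hi => ?_⟩
    by_contra h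
    exact hi (h2 (Finsupp.mem_support_iff.2 h))
  · rintro ⟨h1, h2⟩
    refine ⟨h1, fun i hi => ?_⟩
    by_contra h
    exact (Finsupp.mem_support_iff.1 hi) (h2 i h)

theorem pr_CombU (hN : S_NMP) : S_CombU := by
  classical
  intro n U t e L hte
  set Me := Finset.finsuppAntidiag U e with hMe
  set bad := Me.filter (fun p => ∀ q, L q → ¬ q + q ≤ p) with hbad
  set std := (Finset.finsuppAntidiag U t).filter (fun q => ¬ L q) with hstd
  have hb : bad.card = ∑ ε ∈ Me.image cuM, (bad.filter (fun p => cuM p = ε)).card := by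
    apply Finset.card_eq_sum_card_fiberwise
    intro p hp
    have hp' : p ∈ bad := hp
    exact Finset.mem_coe.2 (Finset.mem_image_of_mem _ (Finset.mem_filter.1 hp').1)
  have hm : Me.card = ∑ ε ∈ Me.image cuM, (Me.filter (fun p => cuM p = ε)).card := by
    apply Finset.card_eq_sum_card_fiberwise
    intro p hp
    exact Finset.mem_coe.2 (Finset.mem_image_of_mem _ hp)
  rw [hb, hm, Finset.sum_mul, Finset.mul_sum]
  refine Finset.sum_le_sum fun ε hε => ?_
  obtain ⟨p0, hp0, hp0ε⟩ := Finset.mem_image.1 hε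
  obtain ⟨h0sum, h0supp⟩ := cu_mem.1 hp0
  -- the degree of the half
  set s := ∑ i ∈ U, p0 i / 2 with hs
  have hhalf : ∀ p ∈ Me, cuM p = ε → cuH p ∈ Finset.finsuppAntidiag U s := by
    intro p hp hpε
    obtain ⟨h1, h2⟩ := cu_mem.1 hp
    rw [cu_mem]
    refine ⟨?_, fun i hi => by rw [cuH_apply, h2 i hi]⟩
    have hA : ∀ i, p i % 2 = p0 i % 2 := by
      intro i
      rw [← cuM_apply, ← cuM_apply, hpε, hp0ε]
    have hB : ∑ i ∈ U, p i = ∑ i ∈ U, p i % 2 + 2 * ∑ i ∈ U, p i / 2 := by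
      rw [Finset.mul_sum, ← Finset.sum_add_distrib]
      exact Finset.sum_congr rfl fun i _ => by omega
    have hC : ∑ i ∈ U, p0 i = ∑ i ∈ U, p0 i % 2 + 2 * ∑ i ∈ U, p0 i / 2 := by
      rw [Finset.mul_sum, ← Finset.sum_add_distrib]
      exact Finset.sum_congr rfl fun i _ => by omega
    have hD : ∑ i ∈ U, p i % 2 = ∑ i ∈ U, p0 i % 2 := Finset.sum_congr rfl fun i _ => hA i
    simp only [cuH_apply]
    omega
  have hback : ∀ h ∈ Finset.finsuppAntidiag U s, h + h + ε ∈ Me.filter (fun p => cuM p = ε) := by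
    intro h hh
    obtain ⟨h1, h2⟩ := cu_mem.1 hh
    have hε1 : ∀ i, ε i = p0 i % 2 := fun i => by rw [← hp0ε, cuM_apply]
    rw [Finset.mem_filter, cu_mem]
    refine ⟨⟨?_, ?_⟩, ?_⟩
    · have hC : ∑ i ∈ U, p0 i = ∑ i ∈ U, p0 i % 2 + 2 * ∑ i ∈ U, p0 i / 2 := by
        rw [Finset.mul_sum, ← Finset.sum_add_distrib]
        exact Finset.sum_congr rfl fun i _ => by omega
      have hE : ∑ i ∈ U, (h + h + ε) i = 2 * ∑ i ∈ U, h i + ∑ i ∈ U, p0 i % 2 := by
        rw [Finset.mul_sum, ← Finset.sum_add_distrib]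
        refine Finset.sum_congr rfl fun i _ => ?_
        simp only [Finsupp.add_apply, hε1]
        ring
      omega
    · intro i hi
      simp only [Finsupp.add_apply, hε1, h2 i hi, h0supp i hi]
    · ext i
      rw [cuM_apply]
      simp only [Finsupp.add_apply, hε1]
      omega
  have hts : t ≤ s := by
    have hC : ∑ i ∈ U, p0 i = ∑ i ∈ U, p0 i % 2 + 2 * ∑ i ∈ U, p0 i / 2 := by
      rw [Finset.mul_sum, ← Finset.sum_add_distrib]
      exact Finset.sum_congr rfl fun i _ => by omega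
    have hD : ∑ i ∈ U, p0 i % 2 ≤ U.card := by
      calc ∑ i ∈ U, p0 i % 2 ≤ ∑ _i ∈ U, 1 := Finset.sum_le_sum fun i _ => by omega
        _ = U.card := by simp
    omega
  set H := (bad.filter (fun p => cuM p = ε)).image cuH with hH
  have hHcard : H.card = (bad.filter (fun p => cuM p = ε)).card := by
    apply Finset.card_image_of_injOn
    intro p hp q hq hpq
    have hp1 := (Finset.mem_filter.1 (Finset.mem_coe.1 hp)).2
    have hq1 := (Finset.mem_filter.1 (Finset.mem_coe.1 hq)).2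
    rw [← cu_eq p, ← cu_eq q, hp1, hq1]
    rw [hpq]
  have hHsub : H ⊆ Finset.finsuppAntidiag U s := by
    intro h hh
    obtain ⟨p, hp, rfl⟩ := Finset.mem_image.1 hh
    obtain ⟨hp1, hp2⟩ := Finset.mem_filter.1 hp
    exact hhalf p (Finset.mem_filter.1 hp1).1 hp2
  have key := hN n U t s H hts hHsub
  have hsub : ((Finset.finsuppAntidiag U t).filter (fun q => ∃ p ∈ H, q ≤ p)).card ≤ std.card := by
    apply Finset.card_le_card
    intro q hq
    obtain ⟨hq1, h, hh, hle⟩ := Finset.mem_filter.1 hq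
    rw [hstd, Finset.mem_filter]
    refine ⟨hq1, fun hL => ?_⟩
    obtain ⟨p, hp, rfl⟩ := Finset.mem_image.1 hh
    obtain ⟨hp1, hp2⟩ := Finset.mem_filter.1 hp
    have hp3 := (Finset.mem_filter.1 hp1).2 q hL
    apply hp3
    intro i
    have h1 := hle i
    rw [cuH_apply] at h1
    rw [Finsupp.add_apply]
    omega
  have hcard : (Finset.finsuppAntidiag U s).card ≤ (Me.filter (fun p => cuM p = ε)).card := by
    apply Finset.card_le_card_of_injOn (fun h => h + h + ε)
    · intro h hh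
      exact hback h hh
    · intro h _ h' _ hhh
      simp only at hhh
      ext i
      have := DFunLike.congr_fun hhh i
      simp only [Finsupp.add_apply] at this
      omega
  rw [← hHcard]
  calc H.card * (Finset.finsuppAntidiag U t).card
      ≤ ((Finset.finsuppAntidiag U t).filter (fun q => ∃ p ∈ H, q ≤ p)).card *
          (Finset.finsuppAntidiag U s).card := by convert key
    _ ≤ std.card * (Me.filter (fun p => cuM p = ε)).card := Nat.mul_le_mul hsub hcard

end Pool.Agent.Work.MP_2ad852_ag.GF
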