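import Mathlib
import Pool.Agent.Work.MP_2ad852_ag.GF.Stmts

/-!
# Item Core of the block GF
-/

namespace Pool.Agent.Work.MP_2ad852_ag.GF

open MvPolynomial Finset

private theorem sumRows {n : ℕ} {R : Type} [CommRing R] (z : Fin n) (k e : ℕ)
    (f : (Fin n →₀ ℕ) → R) : ∑ p : Rows z k e, f p.1 = ∑ p ∈ Mk z k e, f p :=
  Finset.sum_coe_sort (Mk z k e) f

open Classical in
theorem pr_Core (hTan : S_Tan) (hTan2 : S_Tan2) (hVan : S_Van) (hInd : S_Ind)
    (hLA : S_LAcore) : S_Core := by
  intro ι _ n z k e d F hF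
  set L : (Fin n →₀ ℕ) → Prop := IsLead z k e F with hL
  let Sx : Type := Σ l : {l : ι // d l ≤ e}, {b : Fin n →₀ ℕ // b ∈ Mt n (d l.1)}
  let Om : Type := Σ l : {l : ι // d l ≤ e}, {q : Fin n →₀ ℕ // q ∈ Std z k (e - d l.1) L}
  let Bd : Finset (Rows z k e) := Finset.univ.filter (fun p => p.1 ∈ Bad z k e L)
  have hcardB : Bd.card = (Bad z k e L).card := by
    have h1 : Bd.map (Function.Embedding.subtype _) = Bad z k e L := by
      ext p
      simp only [Bd, Finset.mem_map, Finset.mem_filter, Finset.mem_univ, true_and,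
        Function.Embedding.coe_subtype, Subtype.exists, exists_and_left, exists_prop,
        exists_eq_right_right]
      constructor
      · rintro ⟨h, -⟩
        exact h
      · intro h
        exact ⟨h, (Finset.mem_filter.1 h).1⟩
    rw [← h1, Finset.card_map]
  have hcardO : Fintype.card Om = ∑ l ∈ (Finset.univ : Finset ι).filter (fun l => d l ≤ e),
      (Std z k (e - d l) L).card := by
    simp only [Om]
    rw [Fintype.card_sigma]
    rw [Finset.sum_subtype (p := fun l => d l ≤ e)
      ((Finset.univ : Finset ι).filter (fun l => d l ≤ e)) (by simp)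
      (fun l => (Std z k (e - d l) L).card)]
    exact Finset.sum_congr rfl fun l _ => by rw [Fintype.card_coe]
  rw [← hcardB, ← hcardO]
  refine hLA (Rg ι n) (Rows z k e) Sx Om Bd (fun p => F p.1)
    (fun s p => pderiv (s.1.1, s.2.1) (F p.1))
    (fun ω p => coeff p.1 (gf d ω.1.1 * monomial ω.2.1 1))
    (fun s ω => if ω.1.1 = s.1.1 then - fn z k e F (monomial (s.2.1 + ω.2.1) 1) else 0)
    ?_ ?_ ?_ ?_ ?_
  · obtain ⟨p, hp, h⟩ := hF.ne
    exact ⟨⟨p, hp⟩, h⟩
  · intro ω
    have h := hF.kill ω.1.1 (monomial ω.2.1 1)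
    unfold fn at h
    rw [← sumRows] at h
    exact h
  · intro s ω
    have h := hTan ι n z k e d F hF s.1.1 ω.1.1 s.2.1 ω.2.1 s.2.2
    rw [← h]
    unfold fn
    rw [← sumRows]
  · intro c hc
    funext ω
    obtain ⟨l, q, hq⟩ := ω
    let c' : (Fin n →₀ ℕ) → Rg ι n := fun q =>
      if h : q ∈ Std z k (e - d l.1) L then c ⟨l, ⟨q, h⟩⟩ else 0
    have hc' : ∀ q (h : q ∈ Std z k (e - d l.1) L), c' q = c ⟨l, ⟨q, h⟩⟩ := by
      intro q h
      simp only [c', dif_pos h]
    have key := hInd n (Rg ι n) z k e (e - d l.1) F c' (Nat.sub_le _ _) ?_ q hq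
    · rw [hc' q hq] at key
      exact key
    · intro b hb
      have hel : e - (e - d l.1) = d l.1 := Nat.sub_sub_self l.2
      rw [hel] at hb
      have h := hc ⟨l, ⟨b, hb⟩⟩
      rw [Fintype.sum_sigma] at h
      rw [Finset.sum_eq_single_of_mem l (Finset.mem_univ _)] at h
      · simp only [if_true] at h
        have h2 : ∑ q : {q : Fin n →₀ ℕ // q ∈ Std z k (e - d l.1) L},
            c ⟨l, q⟩ * (- fn z k e F (monomial (b + q.1) 1)) =
            ∑ q ∈ Std z k (e - d l.1) L, c' q * (- fn z k e F (monomial (b + q) 1)) := by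
          rw [← Finset.sum_coe_sort (Std z k (e - d l.1) L)
            (fun q => c' q * (- fn z k e F (monomial (b + q) 1)))]
          refine Finset.sum_congr rfl fun q _ => ?_
          rw [hc' q.1 q.2]
        rw [h2] at h
        simp only [mul_neg, Finset.sum_neg_distrib, neg_eq_zero] at h
        exact h
      · intro l' _ hl'
        refine Finset.sum_eq_zero fun q _ => ?_
        rw [if_neg, mul_zero]
        intro h3
        exact hl' (Subtype.ext h3)
  · intro c0 c hB p
    have hV := hVan n (Rg ι n) z k e F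
      (fun p => c0 * F p + ∑ s : Sx, c s * pderiv (s.1.1, s.2.1) (F p)) ?_ ?_ p.1 p.2
    · exact hV
    · intro u v hu hv
      have h1 : fn z k e (fun p => c0 * F p + ∑ s : Sx, c s * pderiv (s.1.1, s.2.1) (F p)) (u * v)
          = c0 * fn z k e F (u * v) +
            ∑ s : Sx, c s * fn z k e (fun p => pderiv (s.1.1, s.2.1) (F p)) (u * v) := by
        unfold fn
        rw [Finset.mul_sum]
        simp_rw [Finset.mul_sum]
        rw [Finset.sum_comm, ← Finset.sum_add_distrib]
        refine Finset.sum_congr rfl fun p _ => ?_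
        rw [mul_add, Finset.mul_sum]
        congr 1
        · ring
        · exact Finset.sum_congr rfl fun s _ => by ring
      rw [h1, hu v, mul_zero, zero_add]
      refine Finset.sum_eq_zero fun s _ => ?_
      rw [hTan2 ι n z k e F (s.1.1, s.2.1) u v hu hv, mul_zero]
    · intro p hp
      exact hB ⟨p, (Finset.mem_filter.1 hp).1⟩ (Finset.mem_filter.2 ⟨Finset.mem_univ _, hp⟩)

end Pool.Agent.Work.MP_2ad852_ag.GF
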