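import Mathlib
import Pool.Agent.Work.MP_2ad852_ag.GF.Stmts

namespace Pool.Agent.Work.MP_2ad852_ag.GF

open MvPolynomial Finset

theorem pr_ExtR : S_ExtR := by
  intro ι _ n z k e s d hR
  obtain ⟨a, ha, l0, p0, hp0z, hp0⟩ := hR
  obtain ⟨φ, hφX, hφ⟩ : ∃ φ : Rg ι n →+* Rg (ι ⊕ Fin s) n,
      (∀ (l : ι) (b : Fin n →₀ ℕ), φ (X (l, b)) = X (Sum.inl l, b)) ∧ Function.Injective φ := by
    refine ⟨(rename (Prod.map Sum.inl id) : Rg ι n →ₐ[ℂ] Rg (ι ⊕ Fin s) n).toRingHom, ?_, ?_⟩
    · intro l b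
      show rename (Prod.map Sum.inl id) (X (l, b)) = X (Sum.inl l, b)
      rw [rename_X]
      rfl
    · exact rename_injective _ (Function.Injective.prodMap Sum.inl_injective
        Function.injective_id)
  have hg : ∀ l, gf (n := n) (Sum.elim d (fun _ : Fin s => e)) (Sum.inl l)
      = MvPolynomial.map φ (gf (n := n) d l) := by
    intro l
    ext1 p
    rw [coeff_map, coeff_gf, coeff_gf]
    by_cases h : ∑ i, p i = d l
    · rw [if_pos h, if_pos (show ∑ i, p i = Sum.elim d (fun _ : Fin s => e) (Sum.inl l) from h),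
        hφX]
    · rw [if_neg h, if_neg (show ¬ ∑ i, p i = Sum.elim d (fun _ : Fin s => e) (Sum.inl l) from h),
        map_zero]
  refine ⟨Sum.elim (fun l => MvPolynomial.map φ (a l)) (fun _ => 0), ⟨?_, ?_, ?_, ?_⟩, ?_⟩
  · rintro (l | j)
    · simp only [Sum.elim_inl]
      exact (ha.hom l).map φ
    · simp only [Sum.elim_inr]
      exact isHomogeneous_zero _ _ _
  · rintro (l | j) h
    · simp only [Sum.elim_inl] at h ⊢
      rw [ha.zero l h, map_zero]
    · simp only [Sum.elim_inr]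
  · intro p hp
    rw [Fintype.sum_sum_type]
    simp only [Sum.elim_inl, Sum.elim_inr, mul_zero, Finset.sum_const_zero, add_zero]
    have : ∑ l, gf (n := n) (Sum.elim d (fun _ : Fin s => e)) (Sum.inl l) * MvPolynomial.map φ (a l)
        = MvPolynomial.map φ (∑ l, gf d l * a l) := by
      rw [map_sum]
      refine Finset.sum_congr rfl fun l _ => ?_
      rw [hg l, map_mul]
    rw [this, coeff_map, ha.kill p hp, map_zero]
  · obtain ⟨l, p, hp, hne⟩ := ha.ne
    refine ⟨Sum.inl l, p, hp, ?_⟩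
    simp only [Sum.elim_inl]
    rw [coeff_map]
    intro h0
    exact hne (hφ (by rw [h0, map_zero]))
  · refine ⟨Sum.inl l0, p0, hp0z, ?_⟩
    simp only [Sum.elim_inl]
    rw [coeff_map]
    intro h0
    exact hp0 (hφ (by rw [h0, map_zero]))

end Pool.Agent.Work.MP_2ad852_ag.GF
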