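import Mathlib
import Pool.Agent.Work.MP_2ad852_ag.GF.Stmts

namespace Pool.Agent.Work.MP_2ad852_ag.GF

open MvPolynomial Finset

theorem pr_GA : S_GA := by
  classical
  intro ι _ n z k e d hn hRK
  obtain ⟨a, ha⟩ := hRK
  obtain ⟨l0, p0, hp0k, hp0⟩ := ha.ne
  -- the minimum
  have hex : ∃ j : ℕ, ∃ l, ∃ p : Fin n →₀ ℕ, p z = j ∧ coeff p (a l) ≠ 0 :=
    ⟨p0 z, l0, p0, rfl, hp0⟩
  obtain ⟨j, hj⟩ : ∃ j, j = Nat.find hex := ⟨_, rfl⟩
  have hjspec : ∃ l, ∃ p : Fin n →₀ ℕ, p z = j ∧ coeff p (a l) ≠ 0 := by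
    rw [hj]; exact Nat.find_spec hex
  have hjmin : ∀ l, ∀ p : Fin n →₀ ℕ, coeff p (a l) ≠ 0 → j ≤ p z := by
    intro l p hp
    rw [hj]
    exact Nat.find_min' hex ⟨l, p, rfl, hp⟩
  have hjk : j < k := lt_of_le_of_lt (hjmin l0 p0 hp0) hp0k
  have : Nontrivial (Fin n) := Fin.nontrivial_iff_two_le.2 hn
  obtain ⟨i, hi⟩ := exists_ne z
  -- division
  obtain ⟨b, hb⟩ : ∃ b : ι → MvPolynomial (Fin n) (Rg ι n),
      ∀ l p, coeff p (b l) = coeff (Finsupp.single z j + p) (a l) :=
    ⟨fun l => (a l).divMonomial (Finsupp.single z j), fun l p => by rw [coeff_divMonomial]⟩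
  have hab : ∀ l, a l = monomial (Finsupp.single z j) 1 * b l := by
    intro l
    refine MvPolynomial.ext _ _ fun p => ?_
    rw [coeff_monomial_mul']
    split_ifs with h
    · rw [one_mul, hb, add_tsub_cancel_of_le h]
    · by_contra hne
      apply h
      rw [Finsupp.single_le_iff]
      exact hjmin l p hne
  have hsum : ∀ p : Fin n →₀ ℕ, ∀ s, ∑ x, (Finsupp.single s j + p : Fin n →₀ ℕ) x = j + ∑ x, p x := by
    intro p s
    simp [Finset.sum_add_distrib, Finsupp.single_apply]
  obtain ⟨S, hS⟩ : ∃ S, S = ∑ l, gf (n := n) d l * b l := ⟨_, rfl⟩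
  have hS1 : ∀ s : Fin n, ∑ l, gf (n := n) d l * (monomial (Finsupp.single s j) 1 * b l) =
      monomial (Finsupp.single s j) 1 * S := by
    intro s
    rw [hS, Finset.mul_sum]
    exact Finset.sum_congr rfl fun l _ => by ring
  have hS2 : ∑ l, gf (n := n) d l * a l = monomial (Finsupp.single z j) 1 * S := by
    rw [← hS1 z]
    exact Finset.sum_congr rfl fun l _ => by rw [← hab l]
  refine ⟨fun l => monomial (Finsupp.single i j) 1 * b l, ?_, ?_, ?_, ?_⟩
  · intro l
    rw [isHomogeneous_iff_Mt]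
    intro p hp
    rw [coeff_monomial_mul'] at hp
    split_ifs at hp with h
    · rw [one_mul, hb] at hp
      have h1 := (isHomogeneous_iff_Mt (a l) (e - d l)).1 (ha.hom l) _ hp
      rw [hsum] at h1
      have h2 := hsum (p - Finsupp.single i j) i
      rw [add_tsub_cancel_of_le h] at h2
      omega
    · exact absurd rfl hp
  · intro l hl
    have h1 : b l = 0 := by
      ext p
      rw [hb, ha.zero l hl]
      simp
    simp [h1]
  · intro p hp
    rw [hS1 i, coeff_monomial_mul']
    split_ifs with h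
    · rw [one_mul]
      obtain ⟨hps, hpz⟩ := mem_Mk.1 hp
      have hq : Finsupp.single z j + (p - Finsupp.single i j) ∈ Mk z k e := by
        rw [mem_Mk]
        constructor
        · rw [hsum]
          have h2 := hsum (p - Finsupp.single i j) i
          rw [add_tsub_cancel_of_le h] at h2
          omega
        · rw [Finsupp.add_apply, Finsupp.tsub_apply, Finsupp.single_apply, Finsupp.single_apply,
            if_pos rfl, if_neg hi]
          omega
      have h3 := ha.kill _ hq
      rw [hS2, coeff_monomial_mul, one_mul] at h3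
      exact h3
    · rfl
  · obtain ⟨l, p, hpz, hp⟩ := hjspec
    refine ⟨l, Finsupp.single i j + (p - Finsupp.single z j), ?_, ?_⟩
    · rw [Finsupp.add_apply, Finsupp.tsub_apply, Finsupp.single_apply, Finsupp.single_apply,
            if_pos rfl, if_neg hi]
      omega
    · rw [coeff_monomial_mul, one_mul, hb, add_tsub_cancel_of_le]
      · exact hp
      · rw [Finsupp.single_le_iff]
        omega

end Pool.Agent.Work.MP_2ad852_ag.GF
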