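import Mathlib
import Pool.Agent.Work.MP_2ad852_ag.GF.Stmts

namespace Pool.Agent.Work.MP_2ad852_ag.GF

open MvPolynomial Finset

theorem pr_GB : S_GB := by
  intro ι _ n z k e d hRK hz
  obtain ⟨a, ha⟩ := hRK
  have hz0 : ∀ l, ∀ p : Fin n →₀ ℕ, p z = 0 → coeff p (a l) = 0 := by
    intro l p hp
    by_contra h
    exact hz ⟨a, ha, l, p, hp, h⟩
  have hsum1 : ∀ p : Fin n →₀ ℕ, ∑ i, (Finsupp.single z 1 + p : Fin n →₀ ℕ) i = 1 + ∑ i, p i := by
    intro p
    simp only [Finsupp.add_apply, Finset.sum_add_distrib]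
    congr 1
    rw [Finset.sum_eq_single z]
    · simp
    · intro i _ hi
      rw [Finsupp.single_eq_of_ne hi]
    · intro h; exact absurd (Finset.mem_univ z) h
  have hdeg : ∀ l, ∀ p : Fin n →₀ ℕ, coeff p (a l) ≠ 0 → d l ≤ e ∧ ∑ i, p i = e - d l := by
    intro l p hp
    constructor
    · by_contra hlt
      apply hp
      rw [ha.zero l (by omega)]
      exact coeff_zero p
    · exact (isHomogeneous_iff_Mt _ _).1 (ha.hom l) p hp
  let b : ι → MvPolynomial (Fin n) (Rg ι n) := fun l => (a l).divMonomial (Finsupp.single z 1)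
  have hb : ∀ l p, coeff p (b l) = coeff (Finsupp.single z 1 + p) (a l) := by
    intro l p
    exact coeff_divMonomial _ _ _
  have hab : ∀ l, a l = X z * b l := by
    intro l
    ext1 p
    rw [coeff_X_mul', hb]
    split_ifs with h
    · congr 1
      rw [add_tsub_cancel_of_le]
      rw [Finsupp.single_le_iff]
      exact Nat.one_le_iff_ne_zero.2 (Finsupp.mem_support_iff.1 h)
    · exact hz0 l p (Finsupp.notMem_support_iff.1 h)
  obtain ⟨l0, p0, hp0, hc0⟩ := ha.ne
  have hp0z : 1 ≤ p0 z := by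
    rw [Nat.one_le_iff_ne_zero]
    intro h
    exact hc0 (hz0 l0 p0 h)
  have hdeg0 := hdeg l0 p0 hc0
  have hle : p0 z ≤ ∑ i, p0 i := Finset.single_le_sum (fun i _ => Nat.zero_le _) (Finset.mem_univ z)
  have hk2 : 2 ≤ k := by omega
  have he1 : 1 ≤ e := by omega
  refine ⟨hk2, he1, b, ?_⟩
  have hbdeg : ∀ l, ∀ p : Fin n →₀ ℕ, coeff p (b l) ≠ 0 → d l + 1 ≤ e ∧ ∑ i, p i = e - 1 - d l := by
    intro l p hp
    rw [hb] at hp
    have h1 := hdeg l _ hp
    rw [hsum1] at h1
    omega
  constructor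
  · intro l
    rw [isHomogeneous_iff_Mt]
    intro p hp
    exact (hbdeg l p hp).2
  · intro l hl
    ext1 p
    rw [coeff_zero]
    by_contra hp
    have := (hbdeg l p hp).1
    omega
  · intro p hp
    rw [mem_Mk] at hp
    have h1 := ha.kill (Finsupp.single z 1 + p) (by
      rw [mem_Mk, hsum1]
      simp only [Finsupp.add_apply, Finsupp.single_eq_same]
      omega)
    have h2 : ∑ l, gf d l * a l = X z * ∑ l, gf d l * b l := by
      rw [Finset.mul_sum]
      refine Finset.sum_congr rfl fun l _ => ?_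
      rw [hab l]; ring
    rw [h2, coeff_X_mul] at h1
    exact h1
  · refine ⟨l0, p0 - Finsupp.single z 1, ?_, ?_⟩
    · simp only [Finsupp.tsub_apply, Finsupp.single_eq_same]
      omega
    · rw [hb, add_tsub_cancel_of_le]
      · exact hc0
      · rw [Finsupp.single_le_iff]
        exact hp0z

end Pool.Agent.Work.MP_2ad852_ag.GF
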