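import Mathlib
import Pool.Agent.Work.MP_2ad852_ag.GF.Stmts

namespace Pool.Agent.Work.MP_2ad852_ag.GF

open MvPolynomial Finset

theorem GC_sum_single {n : ℕ} (z : Fin n) : ∑ i, (Finsupp.single z 1 : Fin n →₀ ℕ) i = 1 := by
  rw [Finset.sum_eq_single_of_mem z (Finset.mem_univ z)]
  · simp
  · intro b _ hb
    rw [Finsupp.single_eq_of_ne (by simpa using hb)]

theorem GC_mem_shift {n : ℕ} (z : Fin n) (k e : ℕ) (he : 1 ≤ e) (p : Fin n →₀ ℕ) :
    p + Finsupp.single z 1 ∈ Mk z k e ↔ p ∈ Mk z (k - 1) (e - 1) := by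
  rw [mem_Mk, mem_Mk]
  simp only [Finsupp.add_apply, Finset.sum_add_distrib, GC_sum_single, Finsupp.single_eq_same]
  omega

/-- the shifted functional -/
theorem GC_fn_shift {n : ℕ} {R : Type} [CommRing R] (z : Fin n) (k e : ℕ) (he : 1 ≤ e)
    (F : (Fin n →₀ ℕ) → R) (u : MvPolynomial (Fin n) R) :
    fn z (k - 1) (e - 1) (fun p => F (p + Finsupp.single z 1)) u = fn z k e F (X z * u) := by
  induction u using MvPolynomial.induction_on' with
  | monomial p b =>
    rw [fn_monomial, X, monomial_mul, fn_monomial, one_mul]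
    have h := GC_mem_shift z k e he p
    rw [add_comm (Finsupp.single z 1) p]
    simp only [h]
  | add p q hp hq =>
    rw [mul_add, fn_add, fn_add, hp, hq]

theorem pr_GC : S_GC := by
  intro ι n z k e d he hL hN
  obtain ⟨F, hF⟩ := hL
  by_cases h : ∃ p ∈ Mk z (k - 1) (e - 1), F (p + Finsupp.single z 1) ≠ 0
  · exfalso
    apply hN
    refine ⟨fun p => F (p + Finsupp.single z 1), ⟨h, ?_⟩⟩
    intro l v
    rw [GC_fn_shift z k e he F]
    have := hF.kill l (X z * v)
    rw [show X z * (gf d l * v) = gf d l * (X z * v) by ring]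
    exact this
  · push Not at h
    have hzero : ∀ p ∈ Mk z k e, 1 ≤ p z → F p = 0 := by
      intro p hp hz
      have hle : Finsupp.single z 1 ≤ p := by
        rw [Finsupp.single_le_iff]
        exact hz
      have hp' : p - Finsupp.single z 1 + Finsupp.single z 1 = p := tsub_add_cancel_of_le hle
      rw [← hp'] at hp ⊢
      exact h _ ((GC_mem_shift z k e he _).1 hp)
    have hsub : Mk z 1 e ⊆ Mk z k e ∨ Mk z k e = ∅ := by
      by_cases hk : k = 0
      · right
        ext p
        simp [mem_Mk, hk]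
      · left
        intro p hp
        rw [mem_Mk] at hp ⊢
        exact ⟨hp.1, by omega⟩
    obtain ⟨p0, hp0, hFp0⟩ := hF.ne
    have hsub' : Mk z 1 e ⊆ Mk z k e := by
      rcases hsub with h1 | h1
      · exact h1
      · rw [h1] at hp0
        simp at hp0
    have hfn : ∀ w, fn z 1 e F w = fn z k e F w := by
      intro w
      unfold fn
      apply Finset.sum_subset hsub'
      intro p hp hp1
      have : 1 ≤ p z := by
        by_contra hc
        apply hp1
        rw [mem_Mk] at hp ⊢
        exact ⟨hp.1, by omega⟩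
      rw [hzero p hp this, mul_zero]
    refine ⟨F, ⟨⟨p0, ?_, hFp0⟩, ?_⟩⟩
    · rw [mem_Mk]
      have h1 := (mem_Mk.1 hp0).1
      refine ⟨h1, ?_⟩
      by_contra hc
      exact hFp0 (hzero p0 hp0 (by omega))
    · intro l v
      rw [hfn]
      exact hF.kill l v

end Pool.Agent.Work.MP_2ad852_ag.GF
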