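import Pool.Agent.Work.MP_2ad852_ag.GF.Stmts

/-!
# Item `Ind`
-/

namespace Pool.Agent.Work.MP_2ad852_ag.GF

open MvPolynomial Finset

theorem pr_Ind : S_Ind := by
  classical
  intro n R _ _ z k e t F c hte h
  by_contra hcon
  push Not at hcon
  obtain ⟨q1, hq1, hc1⟩ := hcon
  obtain ⟨q0, hq0, hmax⟩ := Finset.exists_max_image
    ((Std z k t (IsLead z k e F)).filter (fun q => c q ≠ 0)) (fun q => key z q)
    ⟨q1, Finset.mem_filter.2 ⟨hq1, hc1⟩⟩
  rw [Finset.mem_filter] at hq0
  obtain ⟨hq0S, hc0⟩ := hq0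
  have hS : ∀ q, q ∈ Std z k t (IsLead z k e F) ↔ q ∈ Mk z k t ∧ ¬ IsLead z k e F q := by
    intro q
    unfold Std
    rw [Finset.mem_filter]
  have hcoeff : ∀ p, coeff p (∑ q ∈ Std z k t (IsLead z k e F), monomial q (c q)) =
      if p ∈ Std z k t (IsLead z k e F) then c p else 0 := by
    intro p
    rw [coeff_sum]
    split_ifs with hp
    · rw [Finset.sum_eq_single_of_mem p hp]
      · rw [coeff_monomial, if_pos rfl]
      · intro b _ hb
        rw [coeff_monomial, if_neg hb]
    · refine Finset.sum_eq_zero fun b hb => ?_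
      rw [coeff_monomial, if_neg]
      rintro rfl
      exact hp hb
  have hdeg : ∀ q ∈ Std z k t (IsLead z k e F), ∑ i, q i = t := by
    intro q hq
    exact (mem_Mk.1 ((hS q).1 hq).1).1
  apply ((hS q0).1 hq0S).2
  refine ⟨∑ q ∈ Std z k t (IsLead z k e F), monomial q (c q), ?_, ?_, ?_, ?_⟩
  · rw [isHomogeneous_iff_Mt]
    intro p hp
    rw [hcoeff] at hp
    have hpS : p ∈ Std z k t (IsLead z k e F) := by
      by_contra hn
      rw [if_neg hn] at hp
      exact hp rfl
    rw [hdeg p hpS, hdeg q0 hq0S]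
  · unfold IsAnn
    apply fn_mul_of_monomial
    intro b
    rw [Finset.sum_mul, fn_sum]
    by_cases hb : b ∈ Mt n (e - t)
    · rw [← h b hb]
      refine Finset.sum_congr rfl fun q _ => ?_
      have : (monomial q (c q) * monomial b 1 : MvPolynomial (Fin n) R) =
          C (c q) * monomial (b + q) 1 := by
        rw [monomial_mul, C_mul_monomial, add_comm]
      rw [this, fn_C_mul]
    · refine Finset.sum_eq_zero fun q hq => ?_
      rw [monomial_mul, fn_monomial, if_neg]
      intro hmem
      apply hb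
      rw [mem_Mt]
      have h1 := (mem_Mk.1 hmem).1
      have h2 := hdeg q hq
      simp only [Finsupp.add_apply, Finset.sum_add_distrib] at h1
      omega
  · rw [hcoeff, if_pos hq0S]
    exact hc0
  · intro p hp
    rw [hcoeff] at hp
    have hpS : p ∈ Std z k t (IsLead z k e F) := by
      by_contra hn
      rw [if_neg hn] at hp
      exact hp rfl
    rw [if_pos hpS] at hp
    exact hmax p (Finset.mem_filter.2 ⟨hpS, hp⟩)

end Pool.Agent.Work.MP_2ad852_ag.GF
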