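import Pool.Agent.Work.MP_2ad852_ag.GF.Stmts

/-!
# Leading exponents: multiples of leading exponents are leading exponents
-/

namespace Pool.Agent.Work.MP_2ad852_ag.GF

open MvPolynomial Finset

theorem pr_LeadAdd : S_LeadAdd := by
  intro n R _ _ z k e F q r h
  obtain ⟨u, hu, hann, hq, hle⟩ := h
  have hco : ∀ p, coeff p (u * monomial r 1) = if r ≤ p then coeff (p - r) u else 0 := by
    intro p
    rw [coeff_mul_monomial']
    split_ifs
    · rw [mul_one]
    · rfl
  refine ⟨u * monomial r 1, ?_, IsAnn.mul z k e hann _, ?_, ?_⟩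
  · rw [isHomogeneous_iff_Mt]
    intro p hp
    rw [hco] at hp
    split_ifs at hp with hr
    · have h1 := (isHomogeneous_iff_Mt u _).1 hu _ hp
      have h2 : p = (p - r) + r := (tsub_add_cancel_of_le hr).symm
      rw [h2]
      simp only [Finsupp.coe_add, Pi.add_apply, Finset.sum_add_distrib]
      rw [h1]
    · exact absurd rfl hp
  · rw [hco, if_pos le_add_self, add_tsub_cancel_right]
    exact hq
  · intro p hp
    rw [hco] at hp
    split_ifs at hp with hr
    · have h2 : p = (p - r) + r := (tsub_add_cancel_of_le hr).symm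
      rw [h2, key_add, key_add]
      have h3 := hle _ hp
      exact add_le_add_left h3 _
    · exact absurd rfl hp

end Pool.Agent.Work.MP_2ad852_ag.GF
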