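import Mathlib
import Pool.Agent.Work.MP_2ad852_ag.GF.Stmts

/-!
# LeadSyz: a homogeneous annihilator with a monomial without `z` has a leading exponent without `z`
-/

namespace Pool.Agent.Work.MP_2ad852_ag.GF

open MvPolynomial Finset

theorem pr_LeadSyz : S_LeadSyz := by
  intro n R _ _ z k e m F u hu hann hex
  obtain ⟨p, hpz, hp⟩ := hex
  have hne : u.support.Nonempty := ⟨p, mem_support_iff.2 hp⟩
  obtain ⟨μ, hμ, hmax⟩ := Finset.exists_max_image u.support (fun q => key z q) hne
  have hdeg := (isHomogeneous_iff_Mt u m).1 hu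
  have hμc : coeff μ u ≠ 0 := mem_support_iff.1 hμ
  have hμm := hdeg μ hμc
  have hpm := hdeg p hp
  have hle : key z p ≤ key z μ := hmax p (mem_support_iff.2 hp)
  unfold key at hle
  rw [MonomialOrder.degLex_le_iff] at hle
  have hd := Finsupp.DegLex.monotone_degree hle
  simp only [ofDegLex_toDegLex] at hd
  rw [← sum_eq_degree, ← sum_eq_degree] at hd
  have h1 := sum_erase z p
  have h2 := sum_erase z μ
  have hμz : μ z = 0 := by omega
  refine ⟨μ, hμz, hμm, u, ?_, hann, hμc, ?_⟩
  · rw [hμm]; exact hu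
  · intro q hq
    exact hmax q (mem_support_iff.2 hq)

end Pool.Agent.Work.MP_2ad852_ag.GF
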