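import Mathlib
import Pool.Agent.Work.MP_2ad852_ag.GF.Stmts

/-!
# LeadZero: 0 is not a leading exponent
-/

namespace Pool.Agent.Work.MP_2ad852_ag.GF

open MvPolynomial Finset

theorem pr_LeadZero : S_LeadZero := by
  intro n R _ _ z k e F hF hL
  obtain ⟨p, hp, hFp⟩ := hF
  obtain ⟨u, hu, hann, hc, _⟩ := hL
  have hu0 : u = C (coeff 0 u) := by
    ext q
    rw [coeff_C]
    by_cases hq : (0 : Fin n →₀ ℕ) = q
    · rw [if_pos hq, hq]
    · rw [if_neg hq]
      by_contra hne
      have h1 := (isHomogeneous_iff_Mt u _).1 hu q hne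
      have h2 : ∑ i, q i = 0 := by
        rw [h1]
        simp
      apply hq
      ext i
      have h3 := (Finset.sum_eq_zero_iff.1 h2) i (Finset.mem_univ i)
      rw [h3]
      rfl
  have h := hann (monomial p 1)
  rw [hu0, fn_C_mul, fn_monomial, if_pos hp, one_mul] at h
  rcases mul_eq_zero.1 h with h | h
  · exact hc h
  · exact hFp h

end Pool.Agent.Work.MP_2ad852_ag.GF
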