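import Mathlib
import Pool.Agent.Work.MP_2ad852_ag.GF.Stmts

/-!
# The item MapG
-/

namespace Pool.Agent.Work.MP_2ad852_ag.GF

open MvPolynomial Finset

namespace MapG

/-- the quotient exponent -/
noncomputable def quo {n : ℕ} (j : Fin n) (W : Fin n → ℕ) (t : ℕ) (p : Fin n →₀ ℕ) :
    Fin n →₀ ℕ :=
  Finsupp.equivFunOnFinite.symm
    (fun s => if s = j then t - ∑ s' ∈ Finset.univ.erase j, p s' / W s' else p s / W s)

theorem quo_self {n : ℕ} (j : Fin n) (W : Fin n → ℕ) (t : ℕ) (p : Fin n →₀ ℕ) :
    quo j W t p j = t - ∑ s' ∈ Finset.univ.erase j, p s' / W s' := by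
  simp [quo]

theorem quo_ne {n : ℕ} {j s : Fin n} (W : Fin n → ℕ) (t : ℕ) (p : Fin n →₀ ℕ) (h : s ≠ j) :
    quo j W t p s = p s / W s := by
  simp [quo, h]

theorem core {n : ℕ} (z j : Fin n) (k e t m : ℕ) (L : (Fin n →₀ ℕ) → Prop)
    (c : Fin n → ℕ) (S : Finset (Fin n →₀ ℕ)) (hn : 2 ≤ n) (htm : t ≤ m)
    (hme : 2 * n * m ≤ e) (hc : ∀ s, 1 ≤ c s)
    (hS : ∀ p ∈ S, p ∈ Bad z k e L ∧ (∀ s, s ≠ j → p s ≤ c s * t) ∧ e ≤ n * p j) :
    S.card ≤ (Std z k t L).card * ∏ s ∈ Finset.univ.erase j, n * c s := by
  classical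
  have hn0 : 0 < n := by omega
  have hcard : (Std z k t L).card * ∏ s ∈ Finset.univ.erase j, n * c s =
      ((Std z k t L) ×ˢ (Finset.univ.erase j).pi (fun s => Finset.range (n * c s))).card := by
    rw [Finset.card_product, Finset.card_pi]
    simp
  rw [hcard]
  refine Finset.card_le_card_of_injOn
    (fun p => (quo j (fun s => n * c s) t p, fun s _ => p s % (n * c s))) ?_ ?_
  · intro p hp
    obtain ⟨hb, hle, hpj⟩ := hS p hp
    rw [Bad, Finset.mem_filter, mem_Mk] at hb
    obtain ⟨⟨hsum, hpz⟩, hL⟩ := hb
    have hW : ∀ s, 2 ≤ n * c s := fun s => by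
      have := hc s
      nlinarith
    have h1 : ∀ s ∈ Finset.univ.erase j, n * (p s / (n * c s)) ≤ t := by
      intro s hs
      have h := hle s (Finset.ne_of_mem_erase hs)
      have h2 : p s / (n * c s) * (n * c s) ≤ p s := Nat.div_mul_le_self _ _
      have h3 : (n * (p s / (n * c s))) * c s ≤ t * c s := by
        calc (n * (p s / (n * c s))) * c s = p s / (n * c s) * (n * c s) := by ring
          _ ≤ p s := h2
          _ ≤ c s * t := h
          _ = t * c s := by ring
      exact Nat.le_of_mul_le_mul_right h3 (hc s)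
    have h2 : ∑ s ∈ Finset.univ.erase j, p s / (n * c s) ≤ t := by
      have h3 : n * ∑ s ∈ Finset.univ.erase j, p s / (n * c s) ≤ n * t := by
        rw [Finset.mul_sum]
        refine (Finset.sum_le_sum h1).trans ?_
        rw [Finset.sum_const, smul_eq_mul]
        refine Nat.mul_le_mul_right _ ?_
        rw [Finset.card_erase_of_mem (Finset.mem_univ _), Finset.card_univ, Fintype.card_fin]
        omega
      exact Nat.le_of_mul_le_mul_left h3 hn0
    have hqj : quo j (fun s => n * c s) t p j ≤ t := by
      rw [quo_self]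
      omega
    have hpj2 : 2 * m ≤ p j := by
      have : n * (2 * m) ≤ n * p j := by
        calc n * (2 * m) = 2 * n * m := by ring
          _ ≤ e := hme
          _ ≤ n * p j := hpj
      exact Nat.le_of_mul_le_mul_left this hn0
    have hqq : quo j (fun s => n * c s) t p + quo j (fun s => n * c s) t p ≤ p := by
      intro s
      rw [Finsupp.add_apply]
      by_cases hs : s = j
      · subst hs
        omega
      · rw [quo_ne _ _ _ hs]
        have h3 : p s / (n * c s) * (n * c s) ≤ p s := Nat.div_mul_le_self _ _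
        have h4 : p s / (n * c s) * 2 ≤ p s / (n * c s) * (n * c s) :=
          Nat.mul_le_mul_left _ (hW s)
        omega
    have hmem : quo j (fun s => n * c s) t p ∈ Std z k t L := by
      rw [Std, Finset.mem_filter, mem_Mk]
      refine ⟨⟨?_, ?_⟩, fun h => hL _ h hqq⟩
      · rw [← Finset.add_sum_erase Finset.univ _ (Finset.mem_univ j), quo_self]
        have h3 : ∑ s ∈ Finset.univ.erase j, quo j (fun s => n * c s) t p s =
            ∑ s ∈ Finset.univ.erase j, p s / (n * c s) :=
          Finset.sum_congr rfl fun s hs => quo_ne _ _ _ (Finset.ne_of_mem_erase hs)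
        rw [h3]
        omega
      · have h3 := hqq z
        rw [Finsupp.add_apply] at h3
        omega
    rw [Finset.mem_coe, Finset.mem_product]
    refine ⟨hmem, ?_⟩
    rw [Finset.mem_pi]
    intro s _
    rw [Finset.mem_range]
    exact Nat.mod_lt _ (by have := hW s; omega)
  · intro p hp p' hp' heq
    obtain ⟨hb, -, -⟩ := hS p hp
    obtain ⟨hb', -, -⟩ := hS p' hp'
    rw [Bad, Finset.mem_filter, mem_Mk] at hb hb'
    have e1 := congrArg Prod.fst heq
    have e2 := congrArg Prod.snd heq
    have hs : ∀ s, s ≠ j → p s = p' s := by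
      intro s hs
      have h1 : p s / (n * c s) = p' s / (n * c s) := by
        have := DFunLike.congr_fun e1 s
        rwa [quo_ne _ _ _ hs, quo_ne _ _ _ hs] at this
      have h2 : p s % (n * c s) = p' s % (n * c s) :=
        congrFun (congrFun e2 s) (Finset.mem_erase.2 ⟨hs, Finset.mem_univ _⟩)
      rw [← Nat.div_add_mod (p s) (n * c s), ← Nat.div_add_mod (p' s) (n * c s), h1, h2]
    ext s
    by_cases h : s = j
    · subst h
      have h1 := hb.1.1
      have h2 := hb'.1.1
      rw [← Finset.add_sum_erase Finset.univ _ (Finset.mem_univ s)] at h1 h2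
      have h3 : ∑ s' ∈ Finset.univ.erase s, p s' = ∑ s' ∈ Finset.univ.erase s, p' s' :=
        Finset.sum_congr rfl fun s' hs' => hs s' (Finset.ne_of_mem_erase hs')
      omega
    · exact hs s h

end MapG

theorem pr_MapG : S_MapG := by
  classical
  intro n z i j k e t m A B C L hn hiz hji ht hk htm hme heA hmB hkC
  have hm : 1 ≤ m := ht.trans htm
  have he : 1 ≤ e := by
    have : 1 ≤ 2 * n * m := by
      have : 0 < 2 * n * m := by positivity
      omega
    omega
  have hA : 1 ≤ A := by
    rcases Nat.eq_zero_or_pos A with h | h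
    · subst h
      omega
    · exact h
  have hB : 1 ≤ B := by
    rcases Nat.eq_zero_or_pos B with h | h
    · subst h
      omega
    · exact h
  have hC : 1 ≤ C := by
    rcases Nat.eq_zero_or_pos C with h | h
    · subst h
      omega
    · exact h
  have key := MapG.core z j k e t m L
    (fun s => if s = i then 2 * B else if s = z then 2 * C else A)
    ((Bad z k e L).filter (fun p => p i < 2 * m ∧ e ≤ n * p j)) hn htm hme ?_ ?_
  · refine key.trans (le_of_eq ?_)
    congr 1
    refine Finset.prod_congr rfl fun s _ => ?_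
    split_ifs <;> ring
  · intro s
    split_ifs <;> omega
  · intro p hp
    rw [Finset.mem_filter] at hp
    refine ⟨hp.1, ?_, hp.2.2⟩
    intro s _
    have hb := hp.1
    rw [Bad, Finset.mem_filter, mem_Mk] at hb
    split_ifs with h1 h2
    · subst h1
      have : 2 * B * t = 2 * (B * t) := by ring
      omega
    · subst h2
      have : 2 * C * t = 2 * (C * t) := by ring
      omega
    · have h3 : p s ≤ ∑ s', p s' :=
        Finset.single_le_sum (f := fun s' => p s') (fun _ _ => Nat.zero_le _) (Finset.mem_univ s)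
      omega

end Pool.Agent.Work.MP_2ad852_ag.GF
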