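import Mathlib
import Pool.Agent.Work.MP_2ad852_ag.GF.Stmts

/-!
# MP_2ad852_ag, block GF, item Tan (helper70): the tangent space
-/

namespace Pool.Agent.Work.MP_2ad852_ag.GF

open MvPolynomial Finset

theorem Tan_coeff {ι : Type} [DecidableEq ι] {n : ℕ} (d : ι → ℕ) (s l : ι)
    (b q p : Fin n →₀ ℕ) (hb : b ∈ Mt n (d s)) :
    pderiv (s, b) (coeff p (gf d l * monomial q 1)) = if l = s ∧ p = b + q then 1 else 0 := by
  rw [coeff_mul_monomial', mul_one]
  by_cases hqp : q ≤ p
  · rw [if_pos hqp, coeff_gf]
    by_cases hs : ∑ i, (p - q) i = d l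
    · rw [if_pos hs, pderiv_X]
      by_cases h : l = s ∧ p = b + q
      · rw [if_pos h]
        obtain ⟨h1, h2⟩ := h
        have h3 : p - q = b := by rw [h2, add_tsub_cancel_right]
        rw [h1, h3, Pi.single_eq_same]
      · rw [if_neg h, Pi.single_eq_of_ne]
        intro h1
        apply h
        have h2 := congrArg Prod.fst h1
        have h3 := congrArg Prod.snd h1
        simp only at h2 h3
        refine ⟨h2, ?_⟩
        rw [← h3, tsub_add_cancel_of_le hqp]
    · rw [if_neg hs, map_zero, if_neg]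
      rintro ⟨h1, h2⟩
      apply hs
      have h3 : p - q = b := by rw [h2, add_tsub_cancel_right]
      rw [h3, h1]
      exact mem_Mt.1 hb
  · rw [if_neg hqp, map_zero, if_neg]
    rintro ⟨_, h2⟩
    apply hqp
    rw [h2]
    exact le_add_self

theorem pr_Tan : S_Tan := by
  intro ι _ n z k e d F hF s l b q hb
  have h0 := hF.kill l (monomial q 1)
  have h1 := congrArg (pderiv (s, b)) h0
  rw [map_zero] at h1
  unfold fn at h1
  rw [map_sum] at h1
  have h2 : ∀ p ∈ Mk z k e, pderiv (s, b) (coeff p (gf d l * monomial q 1) * F p) =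
      coeff p (gf d l * monomial q 1) * pderiv (s, b) (F p) +
      (if l = s ∧ p = b + q then 1 else 0) * F p := by
    intro p _
    rw [Derivation.leibniz, smul_eq_mul, smul_eq_mul, Tan_coeff d s l b q p hb]
    ring
  rw [Finset.sum_congr rfl h2, Finset.sum_add_distrib] at h1
  have h3 : ∑ p ∈ Mk z k e, (if l = s ∧ p = b + q then (1 : Rg ι n) else 0) * F p =
      if l = s then fn z k e F (monomial (b + q) 1) else 0 := by
    by_cases hl : l = s
    · rw [if_pos hl, fn_monomial]
      split_ifs with hm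
      · rw [Finset.sum_eq_single_of_mem (b + q) hm]
        · rw [if_pos ⟨hl, rfl⟩]
        · intro p _ hp
          rw [if_neg (fun h => hp h.2), zero_mul]
      · refine Finset.sum_eq_zero fun p hp => ?_
        rw [if_neg, zero_mul]
        rintro ⟨_, rfl⟩
        exact hm hp
    · rw [if_neg hl]
      refine Finset.sum_eq_zero fun p _ => ?_
      rw [if_neg (fun h => hl h.1), zero_mul]
  rw [h3] at h1
  have h4 : fn z k e (fun p => pderiv (s, b) (F p)) (gf d l * monomial q 1) =
      ∑ p ∈ Mk z k e, coeff p (gf d l * monomial q 1) * pderiv (s, b) (F p) := rfl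
  rw [h4, eq_neg_of_add_eq_zero_left h1]
  split_ifs
  · rfl
  · rw [neg_zero]

end Pool.Agent.Work.MP_2ad852_ag.GF
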