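import Mathlib
import Pool.Agent.Work.MP_2ad852_ag.GF.Stmts

/-!
# Item Tan2: second order tangent condition
-/

namespace Pool.Agent.Work.MP_2ad852_ag.GF

open MvPolynomial Finset

/-- apply a derivation to all coefficients -/
noncomputable def derCoeff {ι : Type} {n : ℕ} (s : ι × (Fin n →₀ ℕ))
    (u : MvPolynomial (Fin n) (Rg ι n)) : MvPolynomial (Fin n) (Rg ι n) :=
  ∑ a ∈ u.support, monomial a (pderiv s (coeff a u))

theorem coeff_derCoeff {ι : Type} {n : ℕ} (s : ι × (Fin n →₀ ℕ))
    (u : MvPolynomial (Fin n) (Rg ι n)) (a : Fin n →₀ ℕ) :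
    coeff a (derCoeff s u) = pderiv s (coeff a u) := by
  unfold derCoeff
  rw [coeff_sum]
  by_cases h : a ∈ u.support
  · rw [Finset.sum_eq_single_of_mem a h]
    · rw [coeff_monomial, if_pos rfl]
    · intro b _ hb
      rw [coeff_monomial, if_neg hb]
  · rw [Finset.sum_eq_zero]
    · rw [notMem_support_iff.1 h, map_zero]
    · intro b hb
      rw [coeff_monomial, if_neg]
      rintro rfl
      exact h hb

theorem coeff_derCoeff_mul {ι : Type} {n : ℕ} (s : ι × (Fin n →₀ ℕ))
    (u v : MvPolynomial (Fin n) (Rg ι n)) (p : Fin n →₀ ℕ) :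
    coeff p (derCoeff s u * v + u * derCoeff s v) = pderiv s (coeff p (u * v)) := by
  rw [coeff_add, coeff_mul, coeff_mul, coeff_mul, map_sum, ← Finset.sum_add_distrib]
  refine Finset.sum_congr rfl fun x _ => ?_
  rw [coeff_derCoeff, coeff_derCoeff, Derivation.leibniz, smul_eq_mul, smul_eq_mul]
  ring

theorem pr_Tan2 : S_Tan2 := by
  intro ι n z k e F s u v hu hv
  have h1 : fn z k e F (u * v) = 0 := hu v
  have h2 : fn z k e F (derCoeff s u * v) = 0 := by
    rw [mul_comm]; exact hv _
  have h3 : fn z k e F (u * derCoeff s v) = 0 := hu _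
  have h4 : pderiv s (fn z k e F (u * v)) =
      fn z k e (fun p => pderiv s (F p)) (u * v) +
        fn z k e F (derCoeff s u * v + u * derCoeff s v) := by
    unfold fn
    rw [map_sum, ← Finset.sum_add_distrib]
    refine Finset.sum_congr rfl fun p _ => ?_
    rw [coeff_derCoeff_mul, Derivation.leibniz, smul_eq_mul, smul_eq_mul]
    ring
  rw [h1, map_zero, fn_add, h2, h3, add_zero, add_zero] at h4
  exact h4.symm

end Pool.Agent.Work.MP_2ad852_ag.GF
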