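import Mathlib
import Pool.Agent.Work.MP_2ad852_ag.GF.Stmts

/-!
# S_Terra: the coefficients of a generic syzygy annihilate the left kernel
-/

namespace Pool.Agent.Work.MP_2ad852_ag.GF

open MvPolynomial Finset

/-- coefficientwise application of a derivation -/
noncomputable def Dco {n : ℕ} {ι : Type} (D : Derivation ℂ (Rg ι n) (Rg ι n))
    (u : MvPolynomial (Fin n) (Rg ι n)) : MvPolynomial (Fin n) (Rg ι n) :=
  ∑ q ∈ u.support, monomial q (D (coeff q u))

theorem coeff_Dco {n : ℕ} {ι : Type} (D : Derivation ℂ (Rg ι n) (Rg ι n))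
    (u : MvPolynomial (Fin n) (Rg ι n)) (p : Fin n →₀ ℕ) : coeff p (Dco D u) = D (coeff p u) := by
  unfold Dco
  rw [coeff_sum]
  by_cases h : p ∈ u.support
  · rw [Finset.sum_eq_single_of_mem p h]
    · rw [coeff_monomial, if_pos rfl]
    · intro b _ hb
      rw [coeff_monomial, if_neg hb]
  · have h0 : coeff p u = 0 := by
      rwa [MvPolynomial.notMem_support_iff] at h
    rw [h0, map_zero]
    refine Finset.sum_eq_zero fun b hb => ?_
    rw [coeff_monomial, if_neg]
    rintro rfl
    exact h hb

theorem D_coeff_mul {n : ℕ} {ι : Type} (D : Derivation ℂ (Rg ι n) (Rg ι n))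
    (u v : MvPolynomial (Fin n) (Rg ι n)) (p : Fin n →₀ ℕ) :
    D (coeff p (u * v)) = coeff p (Dco D u * v) + coeff p (u * Dco D v) := by
  classical
  rw [coeff_mul, coeff_mul, coeff_mul, map_sum, ← Finset.sum_add_distrib]
  refine Finset.sum_congr rfl fun x _ => ?_
  rw [Derivation.leibniz, coeff_Dco, coeff_Dco, smul_eq_mul, smul_eq_mul]
  ring

theorem Dco_gf {n : ℕ} {ι : Type} [DecidableEq ι] (d : ι → ℕ) (l s : ι) (b : Fin n →₀ ℕ)
    (hb : ∑ i, b i = d l) :
    Dco (pderiv (R := ℂ) (l, b)) (gf d s) = if s = l then monomial b 1 else 0 := by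
  classical
  ext p
  rw [coeff_Dco, coeff_gf]
  by_cases hsl : s = l
  · subst hsl
    rw [if_pos rfl, coeff_monomial]
    by_cases hbp : b = p
    · subst hbp
      rw [if_pos hb, if_pos rfl, pderiv_X_self]
    · rw [if_neg hbp]
      split_ifs with h
      · rw [pderiv_X_of_ne]
        intro h2
        exact hbp (Prod.mk.inj h2).2.symm
      · rw [map_zero]
  · rw [if_neg hsl, coeff_zero]
    split_ifs with h
    · rw [pderiv_X_of_ne]
      intro h2
      exact hsl (Prod.mk.inj h2).1
    · rw [map_zero]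

theorem pr_Terra : S_Terra := by
  classical
  intro ι _ n z k e d F a hF hhom hzero hkill l v
  refine fn_mul_of_monomial z k e F (a l) (fun b => ?_) v
  by_cases hb : ∑ i, b i = d l
  · -- the Terracini argument
    have h1 : ∀ p ∈ Mk z k e, ∑ s, (coeff p (Dco (pderiv (R := ℂ) (l, b)) (gf d s) * a s) +
        coeff p (gf d s * Dco (pderiv (R := ℂ) (l, b)) (a s))) = 0 := by
      intro p hp
      have h := congrArg (pderiv (R := ℂ) (l, b)) (hkill p hp)
      rw [coeff_sum, map_sum, map_zero] at h
      rw [← h]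
      exact Finset.sum_congr rfl fun s _ => (D_coeff_mul _ _ _ _).symm
    have h2 : ∑ p ∈ Mk z k e, (∑ s, (coeff p (Dco (pderiv (R := ℂ) (l, b)) (gf d s) * a s) +
        coeff p (gf d s * Dco (pderiv (R := ℂ) (l, b)) (a s)))) * F p = 0 :=
      Finset.sum_eq_zero fun p hp => by rw [h1 p hp, zero_mul]
    have h3 : ∑ p ∈ Mk z k e, (∑ s, (coeff p (Dco (pderiv (R := ℂ) (l, b)) (gf d s) * a s) +
        coeff p (gf d s * Dco (pderiv (R := ℂ) (l, b)) (a s)))) * F p =
        ∑ s, fn z k e F (Dco (pderiv (R := ℂ) (l, b)) (gf d s) * a s) +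
        ∑ s, fn z k e F (gf d s * Dco (pderiv (R := ℂ) (l, b)) (a s)) := by
      unfold fn
      rw [Finset.sum_comm (s := Finset.univ) (t := Mk z k e),
        Finset.sum_comm (s := Finset.univ) (t := Mk z k e), ← Finset.sum_add_distrib]
      refine Finset.sum_congr rfl fun p _ => ?_
      rw [← Finset.sum_mul, ← Finset.sum_mul, ← add_mul, ← Finset.sum_add_distrib]
    rw [h3] at h2
    rw [Finset.sum_eq_zero (s := Finset.univ)
      (f := fun s => fn z k e F (gf d s * Dco (pderiv (R := ℂ) (l, b)) (a s)))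
      (fun s _ => hF.kill s _), add_zero, Finset.sum_eq_single l] at h2
    · rw [Dco_gf d l l b hb, if_pos rfl, mul_comm] at h2
      exact h2
    · intro s _ hs
      rw [Dco_gf d l s b hb, if_neg hs, zero_mul, fn_zero]
    · intro h
      exact absurd (Finset.mem_univ l) h
  · -- degree reasons
    unfold fn
    refine Finset.sum_eq_zero fun p hp => ?_
    rw [mem_Mk] at hp
    by_cases hed : e < d l
    · rw [hzero l hed, zero_mul, coeff_zero, zero_mul]
    · rw [coeff_mul_monomial', mul_one]
      split_ifs with hbp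
      · by_cases hc : coeff (p - b) (a l) = 0
        · rw [hc, zero_mul]
        · exfalso
          have h4 := (isHomogeneous_iff_Mt _ _).1 (hhom l) _ hc
          have h5 : ∑ i, p i = ∑ i, (p - b) i + ∑ i, b i := by
            rw [← Finset.sum_add_distrib]
            refine Finset.sum_congr rfl fun i _ => ?_
            rw [Finsupp.tsub_apply]
            exact (Nat.sub_add_cancel (hbp i)).symm
          rw [hp.1, h4] at h5
          omega
      · rw [zero_mul]

end Pool.Agent.Work.MP_2ad852_ag.GF
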