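import Mathlib
import Pool.Agent.Work.MP_2ad852_ag.GF.Stmts

/-!
# Item Van: a functional which kills the square of the annihilator and the bad monomials is zero
-/

namespace Pool.Agent.Work.MP_2ad852_ag.GF

open MvPolynomial Finset

theorem Van_coeff_zero {n : ℕ} {R : Type} [CommRing R] (z : Fin n)
    (u : MvPolynomial (Fin n) R) (q r : Fin n →₀ ℕ)
    (hl : ∀ p, coeff p u ≠ 0 → key z p ≤ key z q) (p' : Fin n →₀ ℕ)
    (h : coeff p' (u * (u * monomial r 1)) ≠ 0) : key z p' ≤ key z (q + q + r) := by
  rw [← mul_assoc, coeff_mul_monomial'] at h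
  split_ifs at h with hr
  · rw [mul_one, coeff_mul] at h
    obtain ⟨x, hx, hne⟩ := Finset.exists_ne_zero_of_sum_ne_zero h
    rw [Finset.HasAntidiagonal.mem_antidiagonal] at hx
    have h1 : coeff x.1 u ≠ 0 := left_ne_zero_of_mul hne
    have h2 : coeff x.2 u ≠ 0 := right_ne_zero_of_mul hne
    have h3 : p' = x.1 + x.2 + r := by
      rw [hx]
      exact (tsub_add_cancel_of_le hr).symm
    rw [h3, key_add, key_add, key_add, key_add]
    exact add_le_add (add_le_add (hl _ h1) (hl _ h2)) le_rfl
  · exact absurd rfl h

theorem Van_coeff_top {n : ℕ} {R : Type} [CommRing R] (z : Fin n)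
    (u : MvPolynomial (Fin n) R) (q r : Fin n →₀ ℕ) (hu : u.IsHomogeneous (∑ i, q i))
    (hl : ∀ p, coeff p u ≠ 0 → key z p ≤ key z q) :
    coeff (q + q + r) (u * (u * monomial r 1)) = coeff q u * coeff q u := by
  rw [← mul_assoc, coeff_mul_monomial, mul_one, coeff_mul]
  rw [Finset.sum_eq_single (q, q)]
  · intro x hx hne
    rw [Finset.HasAntidiagonal.mem_antidiagonal] at hx
    by_contra hcon
    have h1 : coeff x.1 u ≠ 0 := left_ne_zero_of_mul hcon
    have h2 : coeff x.2 u ≠ 0 := right_ne_zero_of_mul hcon
    have k1 := hl _ h1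
    have k2 := hl _ h2
    have hk : key z x.1 + key z x.2 = key z q + key z q := by
      rw [← key_add, ← key_add, hx]
    have e1 : key z x.1 = key z q := by
      rcases lt_or_eq_of_le k1 with hlt | heq
      · exact absurd hk (ne_of_lt (add_lt_add_of_lt_of_le hlt k2))
      · exact heq
    have hom := (isHomogeneous_iff_Mt u _).1 hu
    have e2 : x.1 = q := key_inj z (hom _ h1) e1
    have e3 : x.2 = q := by
      rw [e2] at hx
      exact add_left_cancel hx
    exact hne (Prod.ext e2 e3)
  · intro h
    exfalso
    apply h
    rw [Finset.HasAntidiagonal.mem_antidiagonal]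

open Classical in
theorem pr_Van : S_Van := by
  intro n R _ _ z k e F G hG hBad
  have main : ∀ s : (MonomialOrder.degLex (σ := Fin n)).syn, ∀ p ∈ Mk z k e, key z p = s →
      G p = 0 := by
    intro s
    induction s using WellFoundedLT.induction with
    | ind s ih =>
      intro p hp hs
      by_cases hb : p ∈ Bad z k e (IsLead z k e F)
      · exact hBad p hb
      · unfold Bad at hb
        rw [Finset.mem_filter] at hb
        push Not at hb
        obtain ⟨q, hq, hqp⟩ := hb hp
        obtain ⟨u, hu, hann, hq0, hl⟩ := hq
        have hr : q + q + (p - (q + q)) = p := add_tsub_cancel_of_le hqp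
        have hw := hG u (u * monomial (p - (q + q)) 1) hann (hann.mul z k e _)
        unfold fn at hw
        rw [Finset.sum_eq_single_of_mem p hp] at hw
        · have ht := Van_coeff_top z u q (p - (q + q)) hu hl
          rw [hr] at ht
          rw [ht] at hw
          rcases mul_eq_zero.1 hw with h | h
          · exact absurd h (mul_ne_zero hq0 hq0)
          · exact h
        · intro p' hp' hne
          by_cases hc : coeff p' (u * (u * monomial (p - (q + q)) 1)) = 0
          · rw [hc, zero_mul]
          · have hle := Van_coeff_zero z u q (p - (q + q)) hl p' hc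
            rw [hr] at hle
            have hlt : key z p' < s := by
              rw [← hs]
              refine lt_of_le_of_ne hle fun heq => hne (key_inj z ?_ heq)
              rw [(mem_Mk.1 hp').1, (mem_Mk.1 hp).1]
            rw [ih _ hlt p' hp' rfl, mul_zero]
  exact fun p hp => main _ p hp rfl

end Pool.Agent.Work.MP_2ad852_ag.GF
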